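import Pool.Agent.Q278.Hub.Last

/-! The case of two holes at distance two: conclusion. -/

namespace Pool.Agent.Q278.Hub
open Finset

set_option linter.unusedSectionVars false

variable {n : ℕ} [NeZero n] {G : SimpleGraph (ZMod n)}

/-- equality case, even length -/
theorem even_case (hG : ∀ v, G.Adj v (v + 1)) {c : ZMod n → ℕ} {T : ℕ} (hT : ∀ v, c v ≤ T)
    {σ : Plan n} (hB : Best c T σ) {q : ZMod n} {J : ℕ} (hJ : 1 ≤ J) (S : Sit c σ q (2 * J))
    (E1 : ∀ j, ((Ioo (0 : ℤ) ((2 * J : ℕ) + 1)).filter (fun i : ℤ => j < lev c σ (P q i))).card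
      = 2 * J - 2 * j)
    (E2 : ∀ v, c v ≠ 0 → 1 + (c v - 1 - cost σ v) = 2 ^ lev c σ v) : Solved G c := by
  classical
  have hn := S.hn
  set A := (Ioo (0 : ℤ) ((2 * J : ℕ) + 1)).filter (fun i : ℤ => J - 1 < lev c σ (P q i)) with hA
  have hAc : A.card = 2 := by rw [hA, E1]; omega
  by_cases hfill : ∃ i ∈ A, c (P q i) = 0
  · obtain ⟨i, hiA, hci⟩ := hfill
    rw [hA, Finset.mem_filter] at hiA
    obtain ⟨hi, hlev⟩ := hiA
    have hi' := Finset.mem_Ioo.1 hi
    push_cast at hi'
    have hNH : NH c σ (P q i) := S.hall _ (P_ne (by omega) (by omega) (by omega))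
      (P_ne (by push_cast; omega) (by push_cast; omega) (by push_cast; omega))
    obtain ⟨s, hs⟩ : ∃ s, σ (P q i) = some s := by
      rcases hNH with h | h
      · exact absurd hci h
      · exact Option.ne_none_iff_exists'.1 h
    have hls : lev c σ (P q i) = s.natAbs := by
      unfold lev; rw [if_neg (not_not.2 hci), hs]
    have hC := cen_of_some hT hB hs
    have hmem := center_mem hT hB (p := q) (α := 0) (β := (2 * J : ℕ) + 1) S.h0 S.h1 hi hs
    have hmem' := Finset.mem_Ioo.1 hmem
    push_cast at hmem'
    have heq : P q i - (s : ZMod n) = P q (i - s) := by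
      unfold P; push_cast; ring
    rw [heq] at hC
    obtain ⟨k, hk⟩ : ∃ k : ℕ, k = s.natAbs := ⟨_, rfl⟩
    rw [← hk] at hC
    obtain ⟨c1, c2⟩ := S.cenpos hC hmem'.1 (by push_cast; omega)
    push_cast at c2
    have hsJ : s.natAbs = J := by omega
    rcases (by omega : (s = J ∧ i = 2 * J) ∨ (s = -J ∧ i = 1)) with ⟨h1, h2⟩ | ⟨h1, h2⟩
    · -- swap: unfill position `2J`, fill position `0`
      have hv : P q i - (s : ZMod n) = P q J := by rw [heq]; congr 1; omega
      have hgt : P q J + ((-J : ℤ) : ZMod n) = P q 0 := by rw [P_add]; congr 1; ring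
      refine solved_swap hG hB.1 (P q i) (P q i) (P q J) s (-J) hs hv ?_ ?_ ?_
      · have := hB.1.2 (P q J)
        have e1 : (-(J : ℤ)).natAbs = J := by omega
        rw [e1, hsJ]
        omega
      · rw [hgt]; exact S.hole0
      · intro y hy1 hy2 hy3
        rw [hgt] at hy3
        refine ⟨hy1, S.hall y hy3 ?_⟩
        rw [P_add_one] at hy2
        convert hy2 using 2
        push_cast; omega
    · -- swap: unfill position `1`, fill position `2J+1`
      have hv : P q i - (s : ZMod n) = P q (J + 1) := by rw [heq]; congr 1; omega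
      have hgt : P q (J + 1) + ((J : ℤ) : ZMod n) = P q ((2 * J : ℕ) + 1) := by
        rw [P_add]; congr 1; push_cast; ring
      refine solved_swap hG hB.1 (P q 0) (P q i) (P q (J + 1)) s J hs hv ?_ ?_ ?_
      · have := hB.1.2 (P q (J + 1))
        have e1 : ((J : ℤ)).natAbs = J := by omega
        rw [e1, hsJ]
        omega
      · rw [hgt]; exact S.hole1
      · intro y hy1 hy2 hy3
        rw [hgt] at hy3
        rw [P_add_one, zero_add] at hy2
        exact ⟨by rw [h2]; exact hy2, S.hall y hy1 hy3⟩
  · push Not at hfill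
    have hsub : A ⊆ {(J : ℤ), (J : ℤ) + 1} := by
      intro i hiA
      have hci := hfill i hiA
      rw [hA, Finset.mem_filter] at hiA
      obtain ⟨hi, hlev⟩ := hiA
      have hi' := Finset.mem_Ioo.1 hi
      push_cast at hi'
      have hC := cen_of_lev hT hB hci (j := J) (by omega)
      obtain ⟨c1, c2⟩ := S.cenpos hC hi'.1 (by push_cast; omega)
      push_cast at c2
      rw [Finset.mem_insert, Finset.mem_singleton]
      omega
    have hAeq : A = {(J : ℤ), (J : ℤ) + 1} := by
      apply Finset.eq_of_subset_of_card_le hsub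
      rw [hAc]
      exact Finset.card_le_two
    have hb : ∀ i ∈ A, 2 ^ J ≤ after c σ (P q i) := by
      intro i hiA
      have hci := hfill i hiA
      have h1 := after_orig hB.1 hci
      rw [E2 _ hci] at h1
      refine le_trans ?_ h1
      rw [hA, Finset.mem_filter] at hiA
      exact Nat.pow_le_pow_right (by norm_num) (by omega)
    have hb1 := hb J (by rw [hAeq]; simp)
    have hb2 := hb (J + 1) (by rw [hAeq]; simp)
    rcases (by omega : J = 1 ∨ 2 ≤ J) with h1 | h1
    · subst h1
      exact push3 hG hB.1 S (by norm_num) (by simpa using hb1) (by simpa using hb2)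
    · apply push2 hG hB.1 S hJ (by omega) hb1 (y := J + 1) (by omega) (by push_cast; omega)
        (by omega)
      have e1 : ((J : ℤ) + 1 - J).natAbs = 1 := by omega
      rw [e1]
      refine le_trans ?_ hb2
      exact Nat.pow_le_pow_right (by norm_num) h1

/-- equality case, odd length -/
theorem odd_case (hG : ∀ v, G.Adj v (v + 1)) {c : ZMod n → ℕ} {T : ℕ} (hT : ∀ v, c v ≤ T)
    {σ : Plan n} (hB : Best c T σ) {q : ZMod n} {K : ℕ} (S : Sit c σ q (2 * K + 1))
    (E1 : ∀ j, ((Ioo (0 : ℤ) ((2 * K + 1 : ℕ) + 1)).filter (fun i : ℤ => j < lev c σ (P q i))).card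
      = 2 * K + 1 - 2 * j)
    (E2 : ∀ v, c v ≠ 0 → 1 + (c v - 1 - cost σ v) = 2 ^ lev c σ v) : Solved G c := by
  classical
  have hn := S.hn
  -- the center
  have hcen : c (P q (K + 1)) ≠ 0 ∧ K + 1 ≤ lev c σ (P q (K + 1)) := by
    have hAc := E1 K
    have hne : ((Ioo (0 : ℤ) ((2 * K + 1 : ℕ) + 1)).filter
        (fun i : ℤ => K < lev c σ (P q i))).Nonempty := by
      rw [← Finset.card_pos, hAc]; omega
    obtain ⟨i, hiA⟩ := hne
    rw [Finset.mem_filter] at hiA
    obtain ⟨hi, hlev⟩ := hiA
    have hi' := Finset.mem_Ioo.1 hi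
    push_cast at hi'
    by_cases hci : c (P q i) = 0
    · exfalso
      have hNH : NH c σ (P q i) := S.hall _ (P_ne (by omega) (by omega) (by omega))
        (P_ne (by push_cast; omega) (by push_cast; omega) (by push_cast; omega))
      obtain ⟨s, hs⟩ : ∃ s, σ (P q i) = some s := by
        rcases hNH with h | h
        · exact absurd hci h
        · exact Option.ne_none_iff_exists'.1 h
      have hls : lev c σ (P q i) = s.natAbs := by
        unfold lev; rw [if_neg (not_not.2 hci), hs]
      have hC := cen_of_some hT hB hs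
      have hmem := center_mem hT hB (p := q) (α := 0) (β := (2 * K + 1 : ℕ) + 1) S.h0 S.h1 hi hs
      have hmem' := Finset.mem_Ioo.1 hmem
      push_cast at hmem'
      have heq : P q i - (s : ZMod n) = P q (i - s) := by
        unfold P; push_cast; ring
      rw [heq] at hC
      obtain ⟨k, hk⟩ : ∃ k : ℕ, k = s.natAbs := ⟨_, rfl⟩
      rw [← hk] at hC
      obtain ⟨c1, c2⟩ := S.cenpos hC hmem'.1 (by push_cast; omega)
      push_cast at c2
      omega
    · have hC := cen_of_lev hT hB hci (j := K + 1) (by omega)
      obtain ⟨c1, c2⟩ := S.cenpos hC hi'.1 (by push_cast; omega)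
      push_cast at c1 c2
      have : i = K + 1 := by omega
      subst this
      exact ⟨hci, by omega⟩
  obtain ⟨hcg, hlg⟩ := hcen
  have hCg := cen_of_lev hT hB hcg hlg
  have hag : 2 ^ (K + 1) ≤ after c σ (P q ((K + 1 : ℕ) : ℤ)) := by
    have h1 := after_orig hB.1 hcg
    rw [E2 _ hcg] at h1
    push_cast
    exact le_trans (Nat.pow_le_pow_right (by norm_num) hlg) h1
  by_cases hS1 : ∃ y : ℤ, 0 < y ∧ y < 2 * K + 2 ∧ y ≠ K + 1 ∧ c (P q y) ≠ 0 ∧
      (y - (K + 1)).natAbs < lev c σ (P q y)
  · obtain ⟨y, hy0, hy1, hy2, hy3, hy4⟩ := hS1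
    apply push2 hG hB.1 S (J := K + 1) (by omega) (by omega) hag hy0 (by push_cast; omega)
      (by push_cast; omega)
    have h1 := after_orig hB.1 hy3
    rw [E2 _ hy3] at h1
    refine le_trans ?_ h1
    apply Nat.pow_le_pow_right (by norm_num)
    push_cast
    omega
  · push Not at hS1
    have hlow : ∀ y : ℤ, 0 < y → y < 2 * K + 2 → y ≠ K + 1 →
        lev c σ (P q y) ≤ (y - (K + 1)).natAbs := by
      intro y h1 h2 h3
      by_cases hc : c (P q y) = 0
      · rcases hCg.2 (y - (K + 1)) (by omega) with h4 | ⟨s, h4, h5⟩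
        · exfalso
          rw [P_add] at h4
          apply h4
          rw [← hc]; congr 2; ring
        · rw [P_add] at h4
          have h6 : ((K : ℤ) + 1 + (y - (K + 1))) = y := by ring
          rw [h6] at h4
          unfold lev
          rw [if_neg (not_not.2 hc), h4]
          exact h5
      · exact hS1 y h1 h2 h3 hc
    rcases Nat.eq_zero_or_pos K with hK | hK
    · -- `N = 1`
      subst hK
      have hag' : 2 ≤ after c σ (P q 1) := by simpa using hag
      refine ⟨snd (after c σ) (P q 1) (-1), (exec hG hB.1).trans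
        (reach_send hG _ (-1) (P q 1) (by simpa using hag')), P q 1, fun x hx hx' => ?_⟩
      have e1 : P q 1 + ((-1 : ℤ) : ZMod n) = P q 0 := by rw [P_add]; norm_num
      by_cases hx0 : x = P q 0
      · rw [hx0, ← e1]
        exact snd_tgt _ _ _
      · refine le_trans ?_ (snd_ge hx)
        apply nh_after hB.1 (S.hall x hx0 _)
        rw [P_add_one] at hx'
        simpa using hx'
    · -- the end position
      have hset : ((Ioo (0 : ℤ) ((2 * K + 1 : ℕ) + 1)).filter
          (fun i : ℤ => K - 1 < lev c σ (P q i))) = {(1 : ℤ), (K : ℤ) + 1, 2 * (K : ℤ) + 1} := by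
        apply Finset.eq_of_subset_of_card_le
        · intro i hi
          rw [Finset.mem_filter, Finset.mem_Ioo] at hi
          push_cast at hi
          rw [Finset.mem_insert, Finset.mem_insert, Finset.mem_singleton]
          by_cases hiK : i = K + 1
          · right; left; exact hiK
          · have := hlow i (by omega) (by omega) hiK
            omega
        · rw [E1]
          refine le_trans Finset.card_le_three ?_
          omega
      have h1m : (1 : ℤ) ∈ ((Ioo (0 : ℤ) ((2 * K + 1 : ℕ) + 1)).filter
          (fun i : ℤ => K - 1 < lev c σ (P q i))) := by rw [hset]; simp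
      have h1l := (Finset.mem_filter.1 h1m).2
      have h1u := hlow 1 (by norm_num) (by omega) (by omega)
      have hlev1 : lev c σ (P q 1) = K := by omega
      have h1mem : (1 : ℤ) ∈ Ioo (0 : ℤ) ((2 * K + 1 : ℕ) + 1) := (Finset.mem_filter.1 h1m).1
      by_cases hc1 : c (P q 1) = 0
      · have hNH : NH c σ (P q 1) := S.hall _ (P_ne (by omega) (by omega) (by omega))
          (P_ne (by push_cast; omega) (by push_cast; omega) (by push_cast; omega))
        obtain ⟨s, hs⟩ : ∃ s, σ (P q 1) = some s := by
          rcases hNH with h | h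
          · exact absurd hc1 h
          · exact Option.ne_none_iff_exists'.1 h
        have hls : lev c σ (P q 1) = s.natAbs := by
          unfold lev; rw [if_neg (not_not.2 hc1), hs]
        have hmem := center_mem hT hB (p := q) (α := 0) (β := (2 * K + 1 : ℕ) + 1) S.h0 S.h1
          h1mem hs
        have hmem' := Finset.mem_Ioo.1 hmem
        push_cast at hmem'
        have hsK : s = -K := by omega
        have heq : P q 1 - (s : ZMod n) = P q (1 - s) := by
          unfold P; push_cast; ring
        have hv : P q 1 - (s : ZMod n) = P q (K + 1) := by rw [heq]; congr 1; omega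
        have hgt : P q (K + 1) + ((K + 1 : ℤ) : ZMod n) = P q ((2 * K + 1 : ℕ) + 1) := by
          rw [P_add]; congr 1; push_cast; ring
        refine solved_swap hG hB.1 (P q 0) (P q 1) (P q (K + 1)) s (K + 1) hs hv ?_ ?_ ?_
        · have h2 := E2 _ hcg
          have h3 := hB.1.2 (P q (K + 1))
          have h4 : 2 ^ (K + 1) ≤ 2 ^ lev c σ (P q (K + 1)) :=
            Nat.pow_le_pow_right (by norm_num) hlg
          have e1 : ((K : ℤ) + 1).natAbs = K + 1 := by omega
          have e2 : s.natAbs = K := by omega
          rw [e1, e2]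
          have h5 : 0 < 2 ^ K := by positivity
          omega
        · rw [hgt]; exact S.hole1
        · intro y hy1 hy2 hy3
          rw [hgt] at hy3
          rw [P_add_one, zero_add] at hy2
          exact ⟨hy2, S.hall y hy1 hy3⟩
      · -- original with little left over
        have h2 := E2 _ hc1
        rw [hlev1] at h2
        have hL : c (P q 1) - 1 - cost σ (P q 1) ≤ 1 := by
          by_contra hno
          have e1 : P q 1 + ((-1 : ℤ) : ZMod n) = P q 0 := by rw [P_add]; norm_num
          have h3 := hB.1.2 (P q 1)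
          obtain ⟨s, h4, _⟩ := hB.exch_a hT (v := P q 1) (i := -1)
            (by simp only [Int.reduceNeg, Int.natAbs_neg, Int.natAbs_one, pow_one]; omega)
            (by rw [e1]; exact S.hole0)
          rw [e1] at h4
          exact S.h0 (Or.inr (by rw [h4]; simp))
        have hK1 : K = 1 := by
          by_contra hno
          have : 2 ^ 2 ≤ 2 ^ K := Nat.pow_le_pow_right (by norm_num) (by omega)
          omega
        subst hK1
        apply push3 hG hB.1 S (by norm_num)
        · have := after_orig hB.1 hc1
          omega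
        · simpa using hag

end Pool.Agent.Q278.Hub
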