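import Pool.Agent.Q278.Hub.Total

/-! The case of two holes at distance two. -/

namespace Pool.Agent.Q278.Hub
open Finset

set_option linter.unusedSectionVars false

variable {n : ℕ} [NeZero n] {G : SimpleGraph (ZMod n)}

/-- position `i` relative to `q` -/
def P (q : ZMod n) (i : ℤ) : ZMod n := q + (i : ZMod n)

theorem P_add (q : ZMod n) (i j : ℤ) : P q i + (j : ZMod n) = P q (i + j) := by
  unfold P; push_cast; ring

theorem P_add_one (q : ZMod n) (i : ℤ) : P q i + 1 = P q (i + 1) := by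
  unfold P; push_cast; ring

theorem P_zero (q : ZMod n) : P q 0 = q := by simp [P]

theorem P_n (q : ZMod n) : P q n = q := by simp [P]

theorem P_ne {q : ZMod n} {i j : ℤ} (h : i ≠ j) (h1 : i - j < n) (h2 : j - i < n) :
    P q i ≠ P q j := pos_ne h (abs_lt.2 ⟨by omega, h1⟩)

/-- configuration after sending one pebble from `v` to `v + i` -/
def snd (d : ZMod n → ℕ) (v : ZMod n) (i : ℤ) : ZMod n → ℕ :=
  fun x => d x - (if x = v then 2 ^ i.natAbs else 0) + (if x = v + (i : ZMod n) then 1 else 0)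

theorem snd_tgt (d : ZMod n → ℕ) (v : ZMod n) (i : ℤ) : 1 ≤ snd d v i (v + (i : ZMod n)) := by
  unfold snd; simp

theorem snd_tgt' {d : ZMod n → ℕ} {v : ZMod n} {i : ℤ} (h : v + (i : ZMod n) ≠ v) :
    snd d v i (v + (i : ZMod n)) = d (v + (i : ZMod n)) + 1 := by
  unfold snd; simp [h]

theorem snd_ge {d : ZMod n → ℕ} {v : ZMod n} {i : ℤ} {x : ZMod n} (h : x ≠ v) :
    d x ≤ snd d v i x := by
  unfold snd; rw [if_neg h]; omega

theorem snd_src (d : ZMod n → ℕ) (v : ZMod n) (i : ℤ) : d v - 2 ^ i.natAbs ≤ snd d v i v := by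
  unfold snd; rw [if_pos rfl]; omega

theorem nh_after {c : ZMod n → ℕ} {σ : Plan n} (h : Valid c σ) {v : ZMod n} (hv : NH c σ v) :
    1 ≤ after c σ v := by
  unfold after
  have := h.2 v
  rcases hv with h1 | h1
  · omega
  · rw [if_neg h1]; omega

theorem after_orig {c : ZMod n → ℕ} {σ : Plan n} (h : Valid c σ) {v : ZMod n} (hv : c v ≠ 0) :
    1 + (c v - 1 - cost σ v) ≤ after c σ v := by
  unfold after
  have := h.2 v
  omega

theorem solved_of_plan (hG : ∀ v, G.Adj v (v + 1)) {c : ZMod n → ℕ} {σ : Plan n}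
    (h : Valid c σ) (a : ZMod n) (hc : ∀ x, x ≠ a → x ≠ a + 1 → NH c σ x) : Solved G c :=
  ⟨after c σ, exec hG h, a, fun x h1 h2 => nh_after h (hc x h1 h2)⟩

theorem solved_swap (hG : ∀ v, G.Adj v (v + 1)) {c : ZMod n → ℕ} {σ : Plan n}
    (h : Valid c σ) (a x v : ZMod n) (s i : ℤ) (hs : σ x = some s) (hv : x - (s : ZMod n) = v)
    (hcost : cost σ v + 2 ^ i.natAbs ≤ c v - 1 + 2 ^ s.natAbs) (hc0 : c (v + (i : ZMod n)) = 0)
    (hc : ∀ y, y ≠ a → y ≠ a + 1 → y ≠ v + (i : ZMod n) → y ≠ x ∧ NH c σ y) : Solved G c := by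
  have h1 := h.remove x
  have h2 : cost (Function.update σ x none) v + kap x v (σ x) = cost σ v + kap x v none :=
    cost_upd σ x v none
  have h3 : kap x v (σ x) = 2 ^ s.natAbs := by rw [hs, ← hv, kap_some_self]
  have h4 : kap x v none = 0 := rfl
  have hcv := h.2 v
  have h5 : 0 < 2 ^ i.natAbs := by positivity
  have h6 : 2 ^ s.natAbs ≤ cost σ v := by
    have := kap_le_cost σ x v
    omega
  have h7 := h1.add (v := v) (i := i) (by omega) hc0
  refine solved_of_plan hG h7 a (fun y hy1 hy2 => ?_)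
  by_cases hy : y = v + (i : ZMod n)
  · right; rw [hy, Function.update_self]; simp
  · obtain ⟨h8, h9⟩ := hc y hy1 hy2 hy
    rcases h9 with h9 | h9
    · exact Or.inl h9
    · right
      rw [Function.update_of_ne hy, Function.update_of_ne h8]
      exact h9

/-- The situation: exactly two holes, at positions `0` and `N + 1` of the cycle of length
`N + 3`. -/
structure Sit (c : ZMod n → ℕ) (σ : Plan n) (q : ZMod n) (N : ℕ) : Prop where
  hN : 1 ≤ N
  hn : n = N + 3
  h0 : ¬ NH c σ (P q 0)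
  h1 : ¬ NH c σ (P q (N + 1))
  hall : ∀ x, x ≠ P q 0 → x ≠ P q (N + 1) → NH c σ x

theorem Sit.hole0 {c : ZMod n → ℕ} {σ : Plan n} {q : ZMod n} {N : ℕ} (S : Sit c σ q N) :
    c (P q 0) = 0 := by
  by_contra h; exact S.h0 (Or.inl h)

theorem Sit.hole1 {c : ZMod n → ℕ} {σ : Plan n} {q : ZMod n} {N : ℕ} (S : Sit c σ q N) :
    c (P q (N + 1)) = 0 := by
  by_contra h; exact S.h1 (Or.inl h)

/-- position of a center -/
theorem Sit.cenpos {c : ZMod n → ℕ} {σ : Plan n} {q : ZMod n} {N : ℕ} (S : Sit c σ q N)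
    {k : ℕ} {g : ℤ} (hC : Cen c σ k (P q g)) (hg : 0 < g) (hg2 : g < N + 1) :
    (k : ℤ) ≤ g ∧ g + k ≤ N + 1 := by
  constructor
  · by_contra hno
    apply S.h0
    have := hC.nh (i := -g) (by omega)
    rw [P_add] at this
    convert this using 2
    ring
  · by_contra hno
    apply S.h1
    have := hC.nh (i := N + 1 - g) (by omega)
    rw [P_add] at this
    convert this using 2
    ring

theorem push2 (hG : ∀ v, G.Adj v (v + 1)) {c : ZMod n → ℕ} {σ : Plan n} (hv : Valid c σ)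
    {q : ZMod n} {N : ℕ} (S : Sit c σ q N) {J : ℕ} (hJ : 1 ≤ J) (hJN : J ≤ N)
    (hg : 2 ^ J ≤ after c σ (P q J)) {y : ℤ} (hy0 : 0 < y) (hyN : y < N + 1) (hyJ : y ≠ J)
    (hy : 2 ^ ((y - J).natAbs + 1) ≤ after c σ (P q y)) : Solved G c := by
  have hn := S.hn
  set d0 := after c σ with hd0
  have r0 : Reach G c d0 := exec hG hv
  have e1 : P q y + ((J - y : ℤ) : ZMod n) = P q J := by
    rw [P_add]; congr 1; ring
  have hab : ((J : ℤ) - y).natAbs = (y - J).natAbs := by omega
  have hpow : 2 ^ ((y - J).natAbs + 1) = 2 ^ (y - J).natAbs + 2 ^ (y - J).natAbs := by ring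
  have hpos : 0 < 2 ^ (y - J).natAbs := by positivity
  have hne1 : P q (J : ℤ) ≠ P q y := P_ne (Ne.symm hyJ) (by omega) (by omega)
  set d1 := snd d0 (P q y) (J - y) with hd1
  have r1 : Reach G d0 d1 := reach_send hG d0 (J - y) (P q y) (by rw [hab]; omega)
  have v1 : d0 (P q J) + 1 = d1 (P q J) := by
    have := snd_tgt' (d := d0) (v := P q y) (i := J - y) (by rw [e1]; exact hne1)
    rw [e1] at this
    rw [hd1, this]
  have v2 : 1 ≤ d1 (P q y) := by
    have := snd_src d0 (P q y) (J - y)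
    rw [hab] at this
    rw [hd1]
    omega
  set d2 := snd d1 (P q J) (-J) with hd2
  have hJabs : (-(J : ℤ)).natAbs = J := by omega
  have r2 : Reach G d1 d2 := reach_send hG d1 (-J) (P q J) (by rw [hJabs]; omega)
  have e2 : P q J + ((-J : ℤ) : ZMod n) = P q 0 := by rw [P_add]; congr 1; ring
  refine ⟨d2, (r0.trans r1).trans r2, P q (N + 1), fun x hx _ => ?_⟩
  by_cases hx0 : x = P q 0
  · have := snd_tgt d1 (P q J) (-J)
    rw [e2] at this
    rw [hx0]; exact this
  · by_cases hxJ : x = P q J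
    · have := snd_src d1 (P q J) (-J)
      rw [hJabs] at this
      rw [hxJ, hd2]
      omega
    · refine le_trans ?_ (snd_ge hxJ)
      by_cases hxy : x = P q y
      · rw [hxy]; exact v2
      · refine le_trans ?_ (snd_ge hxy)
        exact nh_after hv (S.hall x hx0 hx)

theorem push3 (hG : ∀ v, G.Adj v (v + 1)) {c : ZMod n → ℕ} {σ : Plan n} (hv : Valid c σ)
    {q : ZMod n} {N : ℕ} (S : Sit c σ q N) (hN : 2 ≤ N)
    (h1 : 2 ≤ after c σ (P q 1)) (h2 : 2 ^ (N - 1) ≤ after c σ (P q 2)) : Solved G c := by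
  have hn := S.hn
  set d0 := after c σ with hd0
  have r0 : Reach G c d0 := exec hG hv
  set d1 := snd d0 (P q 1) 1 with hd1
  have r1 : Reach G d0 d1 := reach_send hG d0 1 (P q 1) (by simpa using h1)
  have e1 : P q 1 + ((1 : ℤ) : ZMod n) = P q 2 := by rw [P_add]; norm_num
  have hne1 : P q 2 ≠ P q 1 := P_ne (by norm_num) (by omega) (by omega)
  have v1 : d0 (P q 2) + 1 = d1 (P q 2) := by
    have := snd_tgt' (d := d0) (v := P q 1) (i := 1) (by rw [e1]; exact hne1)
    rw [e1] at this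
    rw [hd1, this]
  set d2 := snd d1 (P q 2) (N - 1) with hd2
  have habs : ((N : ℤ) - 1).natAbs = N - 1 := by omega
  have r2 : Reach G d1 d2 := reach_send hG d1 (N - 1) (P q 2) (by rw [habs]; omega)
  have e2 : P q 2 + ((N - 1 : ℤ) : ZMod n) = P q (N + 1) := by
    rw [P_add]; congr 1; ring
  refine ⟨d2, (r0.trans r1).trans r2, P q 0, fun x hx hx' => ?_⟩
  rw [P_add_one, zero_add] at hx'
  by_cases hx0 : x = P q (N + 1)
  · have := snd_tgt d1 (P q 2) (N - 1)
    rw [e2] at this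
    rw [hx0]; exact this
  · by_cases hxJ : x = P q 2
    · have := snd_src d1 (P q 2) (N - 1)
      rw [habs] at this
      rw [hxJ, hd2]
      omega
    · refine le_trans ?_ (snd_ge hxJ)
      refine le_trans ?_ (snd_ge hx')
      exact nh_after hv (S.hall x hx hx0)

end Pool.Agent.Q278.Hub
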