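import Pool.Agent.Q278.Hub.Main

/-! The lower bound for strong hub cover pebbling of cycles, and the strong hub sets. -/

namespace Pool.Agent.Q278.Hub
open Finset

/-- `U` is a strong hub set of `G`: it is nonempty and any two distinct vertices are joined by a
path all of whose internal vertices are in `U`. -/
def StrongHub {V : Type} (G : SimpleGraph V) (U : Set V) : Prop :=
  U.Nonempty ∧ ∀ x y, x ≠ y → ∃ p : G.Walk x y, p.IsPath ∧ ∀ v ∈ p.support, v = x ∨ v = y ∨ v ∈ U

/-- From every configuration with `t` pebbles in total some finite sequence of pebbling moves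
reaches a configuration in which every vertex of some strong hub set carries a pebble. -/
def Suffices {V : Type} [Fintype V] [DecidableEq V] (G : SimpleGraph V) (t : ℕ) : Prop :=
  ∀ c : V → ℕ, ∑ v, c v = t →
    ∃ c', Reach G c c' ∧ ∃ U : Set V, StrongHub G U ∧ ∀ u ∈ U, 1 ≤ c' u

theorem adj_val {n : ℕ} (hn : 3 ≤ n) {u v : Fin n} (h : (SimpleGraph.cycleGraph n).Adj u v) :
    v.val = u.val + 1 ∨ u.val = v.val + 1 ∨ (u.val = 0 ∧ v.val + 1 = n) ∨
      (v.val = 0 ∧ u.val + 1 = n) := by
  have key : ∀ a b : Fin n, (a - b).val = 1 →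
      a.val = b.val + 1 ∨ (a.val = 0 ∧ b.val + 1 = n) := by
    intro a b hab
    rw [Fin.sub_def] at hab
    have ha := a.isLt
    have hb := b.isLt
    change (n - b.val + a.val) % n = 1 at hab
    rcases Nat.lt_or_ge (n - b.val + a.val) n with h1 | h1
    · rw [Nat.mod_eq_of_lt h1] at hab
      right
      omega
    · rw [Nat.mod_eq_sub_mod h1, Nat.mod_eq_of_lt (by omega)] at hab
      left
      omega
  rw [SimpleGraph.cycleGraph_adj'] at h
  rcases h with h | h
  · have := key u v h
    omega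
  · have := key v u h
    omega

/-- The weight of a vertex. -/
def wgt {n : ℕ} (v : Fin n) : ℕ := 2 ^ min v.val (n - v.val)

theorem wgt_adj {n : ℕ} (hn : 3 ≤ n) {u v : Fin n} (h : (SimpleGraph.cycleGraph n).Adj u v) :
    wgt v ≤ 2 * wgt u := by
  unfold wgt
  rw [← pow_succ']
  apply Nat.pow_le_pow_right (by norm_num)
  have hu := u.isLt
  have hv := v.isLt
  have := adj_val hn h
  omega

theorem wgt_move {n : ℕ} (hn : 3 ≤ n) {c c' : Fin n → ℕ}
    (h : Move (SimpleGraph.cycleGraph n) c c') :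
    ∑ v, c' v * wgt v ≤ ∑ v, c v * wgt v := by
  obtain ⟨u, w, huw, h2, rfl⟩ := h
  have e1 : ∑ v, (if v = u then 2 else 0) * wgt v = 2 * wgt u := by
    simp [ite_mul]
  have e2 : ∑ v, (if v = w then 1 else 0) * wgt v = wgt w := by
    simp [ite_mul]
  have e3 : ∑ v, (c v - (if v = u then 2 else 0) + (if v = w then 1 else 0)) * wgt v +
      ∑ v, (if v = u then 2 else 0) * wgt v =
      ∑ v, c v * wgt v + ∑ v, (if v = w then 1 else 0) * wgt v := by
    rw [← Finset.sum_add_distrib, ← Finset.sum_add_distrib]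
    apply Finset.sum_congr rfl
    intro v _
    by_cases hv : v = u
    · subst hv
      rw [if_pos rfl, ← add_mul, ← add_mul]
      congr 1
      omega
    · rw [if_neg hv]
      simp only [Nat.sub_zero, zero_mul, add_zero]
      rw [add_mul]
  have := wgt_adj hn huw
  simp only
  omega

theorem wgt_reach {n : ℕ} (hn : 3 ≤ n) {c c' : Fin n → ℕ}
    (h : Reach (SimpleGraph.cycleGraph n) c c') :
    ∑ v, c' v * wgt v ≤ ∑ v, c v * wgt v := by
  induction h with
  | refl => exact le_refl _
  | tail _ h2 ih => exact (wgt_move hn h2).trans ih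

theorem miss_adj_aux {n : ℕ} (hn : 3 ≤ n) {U : Set (Fin n)}
    (hU : StrongHub (SimpleGraph.cycleGraph n) U) {a b : Fin n} (ha : a ∉ U) (hb : b ∉ U)
    (hab : a.val < b.val) : b.val = a.val + 1 ∨ (a.val = 0 ∧ b.val + 1 = n) := by
  by_contra hno
  push Not at hno
  have hbn := b.isLt
  have hx : ∃ x : Fin n, x.val = a.val + 1 := ⟨⟨a.val + 1, by omega⟩, rfl⟩
  obtain ⟨x, hx⟩ := hx
  have hy : ∃ y : Fin n, (y.val = b.val + 1 ∨ (b.val + 1 = n ∧ y.val = 0)) := by
    by_cases h : b.val + 1 = n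
    · exact ⟨⟨0, by omega⟩, Or.inr ⟨h, rfl⟩⟩
    · exact ⟨⟨b.val + 1, by omega⟩, Or.inl rfl⟩
  obtain ⟨y, hy⟩ := hy
  have hxy : x ≠ y := by
    rintro rfl
    omega
  obtain ⟨p, _, hp⟩ := hU.2 x y hxy
  obtain ⟨d, hd, h1, h2⟩ := p.exists_boundary_dart {v : Fin n | a.val < v.val ∧ v.val < b.val}
    (by simp only [Set.mem_setOf_eq]; omega) (by simp only [Set.mem_setOf_eq]; omega)
  have h3 := p.dart_snd_mem_support_of_mem_darts hd
  have h4 := adj_val hn d.adj
  simp only [Set.mem_setOf_eq] at h1 h2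
  have h5 : d.snd = a ∨ d.snd = b := by
    have : d.snd.val = a.val ∨ d.snd.val = b.val := by omega
    rcases this with h | h
    · exact Or.inl (Fin.ext h)
    · exact Or.inr (Fin.ext h)
  rcases hp _ h3 with h | h | h
  · rcases h5 with h6 | h6 <;> (rw [h6] at h; have := congrArg Fin.val h; omega)
  · rcases h5 with h6 | h6 <;> (rw [h6] at h; have := congrArg Fin.val h; omega)
  · rcases h5 with h6 | h6
    · rw [h6] at h; exact ha h
    · rw [h6] at h; exact hb h

theorem sum_pow (k : ℕ) : ∑ i ∈ range k, 2 ^ i + 1 = 2 ^ k := by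
  induction k with
  | zero => simp
  | succ k ih => rw [Finset.sum_range_succ, pow_succ]; omega

theorem sum_pow' (k : ℕ) : ∑ i ∈ range k, 2 ^ (k - i) + 2 = 2 ^ (k + 1) := by
  induction k with
  | zero => simp
  | succ k ih =>
    rw [Finset.sum_range_succ']
    have : ∑ i ∈ range k, 2 ^ (k + 1 - (i + 1)) = ∑ i ∈ range k, 2 ^ (k - i) := by
      apply Finset.sum_congr rfl
      intro i _
      congr 1
      omega
    rw [this, Nat.sub_zero, pow_succ 2 (k + 1)]
    omega

theorem total_even (k : ℕ) : ∑ v : Fin (2 * k), wgt v + 3 = 3 * 2 ^ k := by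
  unfold wgt
  rw [Fin.sum_univ_eq_sum_range (fun i => 2 ^ min i (2 * k - i)) (2 * k), two_mul k,
    Finset.sum_range_add]
  have e1 : ∑ i ∈ range k, 2 ^ min i (k + k - i) = ∑ i ∈ range k, 2 ^ i := by
    apply Finset.sum_congr rfl
    intro i hi
    rw [Finset.mem_range] at hi
    congr 1
    omega
  have e2 : ∑ i ∈ range k, 2 ^ min (k + i) (k + k - (k + i)) = ∑ i ∈ range k, 2 ^ (k - i) := by
    apply Finset.sum_congr rfl
    intro i hi
    rw [Finset.mem_range] at hi
    congr 1
    omega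
  rw [e1, e2]
  have h1 := sum_pow k
  have h2 := sum_pow' k
  rw [pow_succ] at h2
  omega

theorem total_odd (k : ℕ) : ∑ v : Fin (2 * k + 1), wgt v + 3 = 4 * 2 ^ k := by
  unfold wgt
  rw [Fin.sum_univ_eq_sum_range (fun i => 2 ^ min i (2 * k + 1 - i)) (2 * k + 1),
    show 2 * k + 1 = (k + 1) + k by ring, Finset.sum_range_add]
  have e1 : ∑ i ∈ range (k + 1), 2 ^ min i (k + 1 + k - i) = ∑ i ∈ range (k + 1), 2 ^ i := by
    apply Finset.sum_congr rfl
    intro i hi
    rw [Finset.mem_range] at hi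
    congr 1
    omega
  have e2 : ∑ i ∈ range k, 2 ^ min (k + 1 + i) (k + 1 + k - (k + 1 + i)) =
      ∑ i ∈ range k, 2 ^ (k - i) := by
    apply Finset.sum_congr rfl
    intro i hi
    rw [Finset.mem_range] at hi
    congr 1
    omega
  rw [e1, e2]
  have h1 := sum_pow (k + 1)
  have h2 := sum_pow' k
  rw [pow_succ] at h1 h2
  omega

/-- The vertices missed by a strong hub set have total weight at most `M`, if any vertex and any
two adjacent vertices have. -/
theorem miss_le {n : ℕ} (hn : 3 ≤ n) {U : Set (Fin n)}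
    (hU : StrongHub (SimpleGraph.cycleGraph n) U) [DecidablePred (· ∈ U)] {M : ℕ}
    (hM1 : ∀ a : Fin n, wgt a ≤ M)
    (hM2 : ∀ a b : Fin n, (b.val = a.val + 1 ∨ (a.val = 0 ∧ b.val + 1 = n)) →
      wgt a + wgt b ≤ M) :
    ∑ v ∈ univ.filter (fun v => v ∉ U), wgt v ≤ M := by
  set C := univ.filter (fun v => v ∉ U) with hC
  have hmem : ∀ v, v ∈ C ↔ v ∉ U := fun v => by rw [hC, Finset.mem_filter]; simp
  have hcard : C.card ≤ 2 := by
    by_contra h3
    obtain ⟨a, b, c, ha, hb, hc, hab, hac, hbc⟩ := Finset.two_lt_card_iff.1 (not_le.1 h3)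
    rw [hmem] at ha hb hc
    have hab' : a.val ≠ b.val := fun h => hab (Fin.ext h)
    have hac' : a.val ≠ c.val := fun h => hac (Fin.ext h)
    have hbc' : b.val ≠ c.val := fun h => hbc (Fin.ext h)
    have hab2 := fun h => miss_adj_aux hn hU ha hb h
    have hba2 := fun h => miss_adj_aux hn hU hb ha h
    have hac2 := fun h => miss_adj_aux hn hU ha hc h
    have hca2 := fun h => miss_adj_aux hn hU hc ha h
    have hbc2 := fun h => miss_adj_aux hn hU hb hc h
    have hcb2 := fun h => miss_adj_aux hn hU hc hb h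
    by_cases hn4 : 4 ≤ n
    · omega
    · -- `n = 3`: then the hub set is empty
      obtain ⟨u, hu⟩ := hU.1
      have h1 : u.val ≠ a.val := fun h => ha (by rw [← Fin.ext h]; exact hu)
      have h2 : u.val ≠ b.val := fun h => hb (by rw [← Fin.ext h]; exact hu)
      have h3 : u.val ≠ c.val := fun h => hc (by rw [← Fin.ext h]; exact hu)
      have := u.isLt
      have := a.isLt
      have := b.isLt
      have := c.isLt
      omega
  haveI : Nonempty (Fin n) := ⟨⟨0, by omega⟩⟩
  rcases Nat.lt_or_ge C.card 2 with h2 | h2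
  · obtain ⟨a, ha⟩ := Finset.card_le_one_iff_subset_singleton.1 (by omega : C.card ≤ 1)
    exact (Finset.sum_le_sum_of_subset ha).trans (by rw [Finset.sum_singleton]; exact hM1 a)
  · obtain ⟨a, b, hab, hCe⟩ := Finset.card_eq_two.1 (le_antisymm hcard h2)
    have ha : a ∉ U := (hmem a).1 (by rw [hCe]; simp)
    have hb : b ∉ U := (hmem b).1 (by rw [hCe]; simp)
    rw [hCe, Finset.sum_pair hab]
    have hab' : a.val ≠ b.val := fun h => hab (Fin.ext h)
    rcases Nat.lt_or_ge a.val b.val with h | h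
    · exact hM2 a b (miss_adj_aux hn hU ha hb h)
    · rw [add_comm]
      exact hM2 b a (miss_adj_aux hn hU hb ha (by omega))

/-- **Lower bound.** -/
theorem lower {n : ℕ} (hn : 3 ≤ n) {M t : ℕ}
    (hM1 : ∀ a : Fin n, wgt a ≤ M)
    (hM2 : ∀ a b : Fin n, (b.val = a.val + 1 ∨ (a.val = 0 ∧ b.val + 1 = n)) →
      wgt a + wgt b ≤ M) (ht : Suffices (SimpleGraph.cycleGraph n) t) :
    ∑ v : Fin n, wgt v ≤ t + M := by
  classical
  have h0 : 0 < n := by omega
  obtain ⟨c', hr, U, hU, hc'⟩ := ht (fun v => if v = ⟨0, h0⟩ then t else 0) (by simp)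
  have h1 := wgt_reach hn hr
  have h2 : ∑ v : Fin n, (if v = ⟨0, h0⟩ then t else 0) * wgt v = t := by
    simp [ite_mul, wgt]
  rw [h2] at h1
  have h3 := miss_le hn hU hM1 hM2
  have h4 : ∑ v ∈ univ.filter (fun v => v ∈ U), wgt v ≤ ∑ v, c' v * wgt v := by
    calc ∑ v ∈ univ.filter (fun v => v ∈ U), wgt v
        ≤ ∑ v ∈ univ.filter (fun v => v ∈ U), c' v * wgt v := by
          apply Finset.sum_le_sum
          intro v hv
          rw [Finset.mem_filter] at hv
          exact Nat.le_mul_of_pos_left _ (hc' v hv.2)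
      _ ≤ ∑ v, c' v * wgt v := Finset.sum_le_sum_of_subset (Finset.filter_subset _ _)
  have h5 := Finset.sum_filter_add_sum_filter_not univ (fun v : Fin n => v ∈ U) wgt
  omega

end Pool.Agent.Q278.Hub
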