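import Pool.Agent.Q278.Hub.Case

/-! The upper bound for strong hub cover pebbling of cycles. -/

namespace Pool.Agent.Q278.Hub
open Finset

set_option linter.unusedSectionVars false

variable {n : ℕ} [NeZero n] {G : SimpleGraph (ZMod n)}

theorem last_case (hG : ∀ v, G.Adj v (v + 1)) {c : ZMod n → ℕ} {T : ℕ} (hT : ∀ v, c v ≤ T)
    {σ : Plan n} (hB : Best c T σ) {q : ZMod n} {N : ℕ} (S : Sit c σ q N)
    (ht : phi N + 1 ≤ ∑ v, c v) : Solved G c := by
  have hn := S.hn
  have hN := S.hN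
  have hI1 : (Ioo (0 : ℤ) (N + 1)).filter (fun i : ℤ => NH c σ (q + (i : ZMod n))) =
      Ioo (0 : ℤ) (N + 1) := by
    apply Finset.filter_true_of_mem
    intro i hi
    rw [Finset.mem_Ioo] at hi
    exact S.hall (P q i) (P_ne (by omega) (by omega) (by omega))
      (P_ne (by omega) (by omega) (by omega))
  have hs1 := seg_le hT hB (p := q) (α := 0) (β := N + 1) S.h0 S.h1 _ rfl
  rw [hI1] at hs1
  have hcard : (Ioo (0 : ℤ) (N + 1)).card = N := by rw [Int.card_Ioo]; omega
  rw [hcard] at hs1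
  have hm : NH c σ (P q (N + 2)) := S.hall _ (P_ne (by omega) (by omega) (by omega))
    (P_ne (by omega) (by omega) (by omega))
  have hP3 : P q (N + 3) = P q 0 := by
    rw [P_zero]
    have : ((N : ℤ) + 3) = (n : ℤ) := by omega
    rw [this, P_n]
  have hN3 : ¬ NH c σ (P q (N + 3)) := by rw [hP3]; exact S.h0
  have hI2 : (Ioo ((N : ℤ) + 1) (N + 3)).filter (fun i : ℤ => NH c σ (q + (i : ZMod n))) =
      {(N : ℤ) + 2} := by
    ext i
    rw [Finset.mem_filter, Finset.mem_Ioo, Finset.mem_singleton]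
    constructor
    · rintro ⟨h1, _⟩; omega
    · rintro rfl; exact ⟨by omega, hm⟩
  have hs2 := (seg_le hT hB (p := q) (α := N + 1) (β := N + 3) S.h1 hN3 _ rfl).1
  rw [hI2, Finset.sum_singleton, Finset.card_singleton, phi_one] at hs2
  change 2 ^ lev c σ (P q (N + 2)) ≤ 2 at hs2
  have hlm : lev c σ (P q (N + 2)) ≤ 1 := by
    have : (2 : ℕ) ^ lev c σ (P q (N + 2)) ≤ 2 ^ 1 := by simpa using hs2
    exact (Nat.pow_le_pow_iff_right (by norm_num)).1 this
  have hq0 : ¬ NH c σ q := by rw [← P_zero q]; exact S.h0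
  have hval : ∑ v, val c σ v = 2 ^ lev c σ (P q (N + 2)) +
      ∑ i ∈ Ioo (0 : ℤ) (N + 1), 2 ^ lev c σ (q + (i : ZMod n)) := by
    rw [sum_val c σ q hq0]
    have hI : (Ioo (0 : ℤ) n).filter (fun i : ℤ => NH c σ (q + (i : ZMod n))) =
        insert ((N : ℤ) + 2) (Ioo (0 : ℤ) (N + 1)) := by
      ext i
      rw [Finset.mem_filter, Finset.mem_Ioo, Finset.mem_insert, Finset.mem_Ioo]
      constructor
      · rintro ⟨h1, h2⟩
        by_cases h3 : i = N + 1
        · exfalso
          rw [h3] at h2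
          exact S.h1 h2
        · omega
      · intro h
        have hi : i ≠ 0 ∧ i ≠ N + 1 ∧ 0 < i ∧ i < n := by omega
        exact ⟨by omega, S.hall (P q i) (P_ne (by omega) (by omega) (by omega))
          (P_ne (by omega) (by omega) (by omega))⟩
    rw [hI, Finset.sum_insert (by rw [Finset.mem_Ioo]; omega)]
    rfl
  obtain ⟨htot, hE2⟩ := total_le hB.1
  have hcm : c (P q (N + 2)) ≠ 0 := by
    intro hc0
    obtain ⟨s, hs⟩ : ∃ s, σ (P q (N + 2)) = some s := by
      rcases hm with h | h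
      · exact absurd hc0 h
      · exact Option.ne_none_iff_exists'.1 h
    have hmem := center_mem hT hB (p := q) (α := N + 1) (β := N + 3) S.h1 hN3
      (i := N + 2) (by rw [Finset.mem_Ioo]; omega) hs
    rw [Finset.mem_Ioo] at hmem
    have hs0 : s = 0 := by omega
    have := (lt_of_some hT hB.1 hs).2
    rw [hs0] at this
    simp only [Int.cast_zero, sub_zero] at this
    exact this hc0
  rcases (by omega : lev c σ (P q (N + 2)) = 1 ∨ lev c σ (P q (N + 2)) = 0) with hl | hl
  · -- push from `m` to the hole at `N + 1`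
    have hL : 1 ≤ c (P q (N + 2)) - 1 - cost σ (P q (N + 2)) := by
      unfold lev at hl
      rw [if_pos hcm] at hl
      have : 2 ^ 0 ≤ c (P q (N + 2)) - 1 - cost σ (P q (N + 2)) := Nat.lt_size.1 (by omega)
      simpa using this
    have hA := after_orig hB.1 hcm
    have e1 : P q (N + 2) + ((-1 : ℤ) : ZMod n) = P q (N + 1) := by
      rw [P_add]; congr 1; ring
    refine ⟨snd (after c σ) (P q (N + 2)) (-1), (exec hG hB.1).trans
      (reach_send hG _ (-1) (P q (N + 2)) (by
        simp only [Int.reduceNeg, Int.natAbs_neg, Int.natAbs_one, pow_one]; omega)),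
      P q (N + 2), fun x hx hx' => ?_⟩
    have e3 : P q (N + 2) + 1 = P q 0 := by
      rw [P_add_one, ← hP3]; congr 1
    rw [e3] at hx'
    by_cases hx0 : x = P q (N + 1)
    · rw [hx0, ← e1]
      exact snd_tgt _ _ _
    · exact (nh_after hB.1 (S.hall x hx' hx0)).trans (snd_ge hx)
  · rw [hval, hl, pow_zero] at htot
    have h1 := hs1.1
    have heq1 : ∑ i ∈ Ioo (0 : ℤ) (N + 1), 2 ^ lev c σ (q + (i : ZMod n)) = phi N := by omega
    have E1 := hs1.2 heq1
    have E2 := hE2 (by rw [hval, hl, pow_zero]; omega)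
    rcases Nat.even_or_odd' N with ⟨J, hJ | hJ⟩
    · subst hJ
      apply even_case hG hT hB (J := J) (by omega) S _ E2
      intro j
      exact_mod_cast E1 j
    · subst hJ
      apply odd_case hG hT hB (K := J) S _ E2
      intro j
      exact_mod_cast E1 j

/-- **Upper bound.** -/
theorem main (hn3 : 3 ≤ n) (hG : ∀ v, G.Adj v (v + 1)) (c : ZMod n → ℕ)
    (ht : phi (n - 3) + 1 ≤ ∑ v, c v) : Solved G c := by
  have hT : ∀ v, c v ≤ ∑ v, c v := fun v =>
    Finset.single_le_sum (f := c) (fun _ _ => Nat.zero_le _) (Finset.mem_univ v)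
  obtain ⟨σ, hB⟩ := exists_best c (∑ v, c v)
  set H := univ.filter (fun v => ¬ NH c σ v) with hH
  have hmem : ∀ v, v ∈ H ↔ ¬ NH c σ v := fun v => by rw [hH, Finset.mem_filter]; simp
  obtain ⟨htot, _⟩ := total_le hB.1
  by_cases h1 : H.card ≤ 1
  · obtain ⟨a, ha⟩ := Finset.card_le_one_iff_subset_singleton.1 h1
    refine solved_of_plan hG hB.1 a (fun x hx _ => ?_)
    by_contra hno
    have := ha ((hmem x).2 hno)
    exact hx (Finset.mem_singleton.1 this)
  by_cases h3 : 3 ≤ H.card
  · exfalso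
    obtain ⟨p, hp⟩ : H.Nonempty := Finset.card_pos.1 (by omega)
    have hp' := (hmem p).1 hp
    have ha : ¬ NH c σ (p + ((0 : ℤ) : ZMod n)) := by simpa using hp'
    have hb : ¬ NH c σ (p + (((n : ℤ)) : ZMod n)) := by simpa using hp'
    have hs := (seg_le hT hB ha hb _ rfl).1
    rw [sum_val c σ p hp'] at htot
    have hc := card_nh c σ p hp'
    change _ + H.card = n at hc
    have hm := phi_mono (show ((Ioo (0 : ℤ) n).filter
      (fun i : ℤ => NH c σ (p + (i : ZMod n)))).card ≤ n - 3 by omega)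
    omega
  have h2 : H.card = 2 := by omega
  obtain ⟨p, q, hpq, hHe⟩ := Finset.card_eq_two.1 h2
  have hall : ∀ v, v ≠ p → v ≠ q → NH c σ v := by
    intro v hv1 hv2
    by_contra hno
    have := (hmem v).2 hno
    rw [hHe] at this
    simp only [Finset.mem_insert, Finset.mem_singleton] at this
    tauto
  have hp' : ¬ NH c σ p := (hmem p).1 (by rw [hHe]; simp)
  have hq' : ¬ NH c σ q := (hmem q).1 (by rw [hHe]; simp)
  obtain ⟨d, hd0, hdn, hd⟩ := exists_pos p q
  have hd1 : d ≠ 0 := by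
    rintro rfl
    apply hpq
    rw [hd]; simp
  by_cases c1 : d = 1
  · subst c1
    refine solved_of_plan hG hB.1 p (fun x hx hx' => hall x hx ?_)
    rw [hd]; simpa using hx'
  by_cases c2 : d = n - 1
  · refine solved_of_plan hG hB.1 q (fun x hx hx' => hall x ?_ hx)
    have : q + 1 = p := by
      rw [hd, c2]; push_cast; simp
    rwa [this] at hx'
  by_cases c3 : d = n - 2
  · have hq2 : q = P p ((n - 3 : ℕ) + 1) := by
      rw [hd, c3]; unfold P; congr 2
      omega
    apply last_case hG hT hB (q := p) (N := n - 3) _ ht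
    refine ⟨by omega, by omega, by rw [P_zero]; exact hp', by rw [← hq2]; exact hq', ?_⟩
    intro x h1 h2
    rw [P_zero] at h1
    rw [← hq2] at h2
    exact hall x h1 h2
  by_cases c4 : d = 2
  · have hp2 : p = P q ((n - 3 : ℕ) + 1) := by
      have h5 : q = P p 2 := by rw [hd, c4]; rfl
      rw [h5]
      have h6 : P (P p 2) ((n - 3 : ℕ) + 1) = P p n := by
        show P p 2 + ((((n - 3 : ℕ) + 1 : ℤ)) : ZMod n) = P p n
        rw [P_add]; congr 1; omega
      rw [h6, P_n]
    apply last_case hG hT hB (q := q) (N := n - 3) _ ht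
    refine ⟨by omega, by omega, by rw [P_zero]; exact hq', by rw [← hp2]; exact hp', ?_⟩
    intro x h1 h2
    rw [P_zero] at h1
    rw [← hp2] at h2
    exact hall x h2 h1
  exfalso
  have ha : ¬ NH c σ (p + ((0 : ℤ) : ZMod n)) := by simpa using hp'
  have hm : ¬ NH c σ (p + ((d : ℤ) : ZMod n)) := by rw [← hd]; exact hq'
  have hb : ¬ NH c σ (p + (((n : ℤ)) : ZMod n)) := by simpa using hp'
  have hs1 := (seg_le hT hB ha hm _ rfl).1
  have hs2 := (seg_le hT hB hm hb _ rfl).1
  rw [sum_val c σ p hp'] at htot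
  have hsplit : (Ioo (0 : ℤ) n).filter (fun i : ℤ => NH c σ (p + (i : ZMod n))) =
      (Ioo (0 : ℤ) d).filter (fun i : ℤ => NH c σ (p + (i : ZMod n))) ∪
      (Ioo d (n : ℤ)).filter (fun i : ℤ => NH c σ (p + (i : ZMod n))) := by
    ext i
    simp only [Finset.mem_union, Finset.mem_filter, Finset.mem_Ioo]
    constructor
    · rintro ⟨h5, h6⟩
      by_cases h7 : i = d
      · exfalso; rw [h7] at h6; exact hm h6
      · rcases lt_or_gt_of_ne h7 with h8 | h8
        · exact Or.inl ⟨⟨h5.1, h8⟩, h6⟩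
        · exact Or.inr ⟨⟨h8, h5.2⟩, h6⟩
    · rintro (⟨h5, h6⟩ | ⟨h5, h6⟩)
      · exact ⟨by omega, h6⟩
      · exact ⟨by omega, h6⟩
  have hdisj : Disjoint ((Ioo (0 : ℤ) d).filter (fun i : ℤ => NH c σ (p + (i : ZMod n))))
      ((Ioo d (n : ℤ)).filter (fun i : ℤ => NH c σ (p + (i : ZMod n)))) := by
    rw [Finset.disjoint_left]
    intro i h5 h6
    rw [Finset.mem_filter, Finset.mem_Ioo] at h5 h6
    omega
  rw [hsplit, Finset.sum_union hdisj] at htot
  have hk1 : ((Ioo (0 : ℤ) d).filter (fun i : ℤ => NH c σ (p + (i : ZMod n)))).card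
      ≤ (d - 1).toNat := by
    refine (Finset.card_filter_le _ _).trans ?_
    rw [Int.card_Ioo]; omega
  have hk2 : ((Ioo d (n : ℤ)).filter (fun i : ℤ => NH c σ (p + (i : ZMod n)))).card
      ≤ (n - d - 1).toNat := by
    refine (Finset.card_filter_le _ _).trans ?_
    rw [Int.card_Ioo]
  have m1 := phi_mono hk1
  have m2 := phi_mono hk2
  have m3 := phi_add (a := (d - 1).toNat) (b := (n - d - 1).toNat) (by omega) (by omega)
  have m4 : (d - 1).toNat + (n - d - 1).toNat - 1 = n - 3 := by omega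
  rw [m4] at m3
  omega

end Pool.Agent.Q278.Hub
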