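import Pool.Agent.Q278.Hub.Plan

/-! Pebbling moves and execution of plans. -/

namespace Pool.Agent.Q278.Hub
open Finset

/-- A pebbling move on a graph. -/
def Move {V : Type} [DecidableEq V] (G : SimpleGraph V) (c c' : V → ℕ) : Prop :=
  ∃ u w, G.Adj u w ∧ 2 ≤ c u ∧
    c' = fun x => c x - (if x = u then 2 else 0) + (if x = w then 1 else 0)

/-- Reachability by finitely many pebbling moves. -/
def Reach {V : Type} [DecidableEq V] (G : SimpleGraph V) : (V → ℕ) → (V → ℕ) → Prop :=
  Relation.ReflTransGen (Move G)

section gen
variable {V : Type} [DecidableEq V] {G : SimpleGraph V}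

theorem Move.add {a b : V → ℕ} (h : Move G a b) (r : V → ℕ) : Move G (a + r) (b + r) := by
  obtain ⟨u, w, h1, h2, rfl⟩ := h
  refine ⟨u, w, h1, ?_, ?_⟩
  · simp only [Pi.add_apply]; omega
  · funext x
    simp only [Pi.add_apply]
    by_cases hx : x = u
    · subst hx
      simp only [if_true]
      omega
    · simp only [if_neg hx]
      omega

theorem Reach.add_right {a b : V → ℕ} (h : Reach G a b) (r : V → ℕ) :
    Reach G (a + r) (b + r) := by
  induction h with
  | refl => exact Relation.ReflTransGen.refl
  | tail _ h2 ih => exact ih.tail (h2.add r)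

theorem Reach.add {a b a' b' : V → ℕ} (h : Reach G a b) (h' : Reach G a' b') :
    Reach G (a + a') (b + b') := by
  refine (h.add_right a').trans ?_
  have := h'.add_right b
  rwa [add_comm a' b, add_comm b' b] at this

theorem reach_adj {u w : V} (h : G.Adj u w) : Reach G (Pi.single u 2) (Pi.single w 1) := by
  refine Relation.ReflTransGen.single ⟨u, w, h, by simp, ?_⟩
  funext x
  by_cases hx : x = u
  · subst hx
    have : x ≠ w := h.ne
    simp [this]
  · by_cases hw : x = w
    · subst hw; simp [hx]
    · simp [hx, hw]

theorem reach_multi {u w : V} (h : G.Adj u w) (m : ℕ) :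
    Reach G (Pi.single u (2 * m)) (Pi.single w m) := by
  induction m with
  | zero =>
    simp only [Nat.mul_zero, Pi.single_zero]
    exact Relation.ReflTransGen.refl
  | succ m ih =>
    have h1 : (Pi.single u (2 * (m + 1)) : V → ℕ) = Pi.single u (2 * m) + Pi.single u 2 := by
      rw [← Pi.single_add]; rfl
    have h2 : (Pi.single w (m + 1) : V → ℕ) = Pi.single w m + Pi.single w 1 := by
      rw [← Pi.single_add]
    rw [h1, h2]
    exact ih.add (reach_adj h)

end gen

variable {n : ℕ} [NeZero n] {G : SimpleGraph (ZMod n)}

theorem reach_up (hG : ∀ v, G.Adj v (v + 1)) (k : ℕ) (v : ZMod n) :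
    Reach G (Pi.single v (2 ^ k)) (Pi.single (v + (k : ZMod n)) 1) := by
  induction k generalizing v with
  | zero =>
    simp only [pow_zero, Nat.cast_zero, add_zero]
    exact Relation.ReflTransGen.refl
  | succ k ih =>
    have h1 := reach_multi (hG v) (2 ^ k)
    rw [← pow_succ'] at h1
    have h2 := ih (v + 1)
    have h3 : v + 1 + (k : ZMod n) = v + ((k + 1 : ℕ) : ZMod n) := by push_cast; ring
    rw [h3] at h2
    exact h1.trans h2

theorem reach_down (hG : ∀ v, G.Adj v (v + 1)) (k : ℕ) (v : ZMod n) :
    Reach G (Pi.single v (2 ^ k)) (Pi.single (v - (k : ZMod n)) 1) := by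
  induction k generalizing v with
  | zero =>
    simp only [pow_zero, Nat.cast_zero, sub_zero]
    exact Relation.ReflTransGen.refl
  | succ k ih =>
    have ha : G.Adj v (v - 1) := by
      have := hG (v - 1)
      rw [sub_add_cancel] at this
      exact this.symm
    have h1 := reach_multi ha (2 ^ k)
    rw [← pow_succ'] at h1
    have h2 := ih (v - 1)
    have h3 : v - 1 - (k : ZMod n) = v - ((k + 1 : ℕ) : ZMod n) := by push_cast; ring
    rw [h3] at h2
    exact h1.trans h2

theorem reach_far (hG : ∀ v, G.Adj v (v + 1)) (i : ℤ) (v : ZMod n) :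
    Reach G (Pi.single v (2 ^ i.natAbs)) (Pi.single (v + (i : ZMod n)) 1) := by
  rcases Int.eq_nat_or_neg i with ⟨k, rfl | rfl⟩
  · have := reach_up hG k v
    simpa using this
  · have := reach_down hG k v
    rw [sub_eq_add_neg] at this
    simpa using this

/-- Move one pebble from `v` to `v + i`. -/
theorem reach_send (hG : ∀ v, G.Adj v (v + 1)) (c : ZMod n → ℕ) (i : ℤ) (v : ZMod n)
    (h : 2 ^ i.natAbs ≤ c v) :
    Reach G c (fun x => c x - (if x = v then 2 ^ i.natAbs else 0) +
      (if x = v + (i : ZMod n) then 1 else 0)) := by
  have h1 := (reach_far hG i v).add_right (fun x => c x - (if x = v then 2 ^ i.natAbs else 0))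
  convert h1 using 1
  · funext x
    simp only [Pi.add_apply, Pi.single_apply]
    by_cases hx : x = v
    · subst hx; simp only [if_true]; omega
    · simp only [if_neg hx]; omega
  · funext x
    simp only [Pi.add_apply, Pi.single_apply]
    rw [add_comm]

/-- The configuration after executing the plan. -/
def after (c : ZMod n → ℕ) (σ : Plan n) (v : ZMod n) : ℕ :=
  c v - cost σ v + (if σ v = none then 0 else 1)

theorem exec (hG : ∀ v, G.Adj v (v + 1)) {c : ZMod n → ℕ} {σ : Plan n} (h : Valid c σ) :
    Reach G c (after c σ) := by
  let src : ZMod n → ZMod n → ℕ := fun x => match σ x with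
    | none => 0
    | some s => Pi.single (x - (s : ZMod n)) (2 ^ s.natAbs)
  let tgt : ZMod n → ZMod n → ℕ := fun x => match σ x with
    | none => 0
    | some s => Pi.single x 1
  have hx : ∀ x, Reach G (src x) (tgt x) := by
    intro x
    simp only [src, tgt]
    cases hs : σ x with
    | none => exact Relation.ReflTransGen.refl
    | some s =>
      have := reach_far hG s (x - (s : ZMod n))
      rwa [sub_add_cancel] at this
  have hA : ∀ A : Finset (ZMod n), Reach G (∑ x ∈ A, src x) (∑ x ∈ A, tgt x) := by
    intro A
    induction A using Finset.induction_on with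
    | empty => exact Relation.ReflTransGen.refl
    | insert a A ha ih =>
      rw [Finset.sum_insert ha, Finset.sum_insert ha]
      exact (hx a).add ih
  have h1 := (hA univ).add_right (fun v => c v - cost σ v)
  convert h1 using 1
  · funext v
    simp only [Pi.add_apply, Finset.sum_apply]
    have h2 : ∑ x, src x v = cost σ v := by
      unfold cost
      apply Finset.sum_congr rfl
      intro x _
      simp only [src, kap]
      cases σ x with
      | none => rfl
      | some s =>
        simp only [Pi.single_apply]
        by_cases hv : v = x - (s : ZMod n)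
        · rw [if_pos hv, if_pos hv.symm]
        · rw [if_neg hv, if_neg (Ne.symm hv)]
    rw [h2]
    have := h.2 v
    omega
  · funext v
    simp only [Pi.add_apply, Finset.sum_apply, after]
    have h2 : ∑ x, tgt x v = if σ v = none then 0 else 1 := by
      rw [Finset.sum_eq_single v]
      · simp only [tgt]
        cases σ v with
        | none => rfl
        | some s => simp
      · intro x _ hxv
        simp only [tgt]
        cases σ x with
        | none => rfl
        | some s => simp [Pi.single_apply, Ne.symm hxv]
      · intro hv; exact absurd (Finset.mem_univ v) hv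
    rw [h2, add_comm]

/-- All vertices but two adjacent ones can be covered. -/
def Solved (G : SimpleGraph (ZMod n)) (c : ZMod n → ℕ) : Prop :=
  ∃ c', Reach G c c' ∧ ∃ a : ZMod n, ∀ x, x ≠ a → x ≠ a + 1 → 1 ≤ c' x

end Pool.Agent.Q278.Hub
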