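import Mathlib

/-!
Plans for covering vertices of the cycle `ZMod n`: `σ x = some s` means that the empty vertex `x`
receives a pebble from `x - s`, which costs `2 ^ |s|` pebbles there.
-/

namespace Pool.Agent.Q278.Hub
open Finset

/-- A plan: displacement of the pebble that fills a vertex. -/
abbrev Plan (n : ℕ) := ZMod n → Option ℤ

set_option linter.unusedSectionVars false

variable {n : ℕ} [NeZero n]

/-- cost contribution at `v` of filling `x` with displacement `o` -/
def kap (x v : ZMod n) (o : Option ℤ) : ℕ :=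
  match o with
  | none => 0
  | some s => if x - (s : ZMod n) = v then 2 ^ s.natAbs else 0

/-- total cost at `v` -/
def cost (σ : Plan n) (v : ZMod n) : ℕ := ∑ x, kap x v (σ x)

/-- A plan is valid. -/
def Valid (c : ZMod n → ℕ) (σ : Plan n) : Prop :=
  (∀ x, σ x ≠ none → c x = 0) ∧ ∀ v, cost σ v ≤ c v - 1

/-- weight of one filled vertex -/
def psi (T : ℕ) (o : Option ℤ) : ℕ :=
  match o with
  | none => 0
  | some s => 3 ^ (T - s.natAbs)

/-- potential of a plan -/
def Psi (T : ℕ) (σ : Plan n) : ℕ := ∑ x, psi T (σ x)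

theorem sum_upd (f : ZMod n → Option ℤ → ℕ) (σ : Plan n) (y : ZMod n) (o : Option ℤ) :
    ∑ x, f x (Function.update σ y o x) + f y (σ y) = ∑ x, f x (σ x) + f y o := by
  rw [← Finset.add_sum_erase univ (fun x => f x (Function.update σ y o x)) (Finset.mem_univ y),
    ← Finset.add_sum_erase univ (fun x => f x (σ x)) (Finset.mem_univ y)]
  have : ∑ x ∈ univ.erase y, f x (Function.update σ y o x) = ∑ x ∈ univ.erase y, f x (σ x) := by
    apply Finset.sum_congr rfl
    intro x hx
    rw [Function.update_of_ne (Finset.ne_of_mem_erase hx)]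
  simp only [this, Function.update_self]
  omega

theorem cost_upd (σ : Plan n) (y v : ZMod n) (o : Option ℤ) :
    cost (Function.update σ y o) v + kap y v (σ y) = cost σ v + kap y v o :=
  sum_upd (fun x o => kap x v o) σ y o

theorem Psi_upd (T : ℕ) (σ : Plan n) (y : ZMod n) (o : Option ℤ) :
    Psi T (Function.update σ y o) + psi T (σ y) = Psi T σ + psi T o :=
  sum_upd (fun _ o => psi T o) σ y o

theorem kap_some_self (x : ZMod n) (s : ℤ) : kap x (x - (s : ZMod n)) (some s) = 2 ^ s.natAbs := by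
  simp [kap]

theorem kap_le_cost (σ : Plan n) (x v : ZMod n) : kap x v (σ x) ≤ cost σ v := by
  unfold cost
  exact Finset.single_le_sum (f := fun x => kap x v (σ x)) (fun _ _ => Nat.zero_le _)
    (Finset.mem_univ x)

/-- Adding a pebble. -/
theorem Valid.add {c : ZMod n → ℕ} {σ : Plan n} (h : Valid c σ) {v : ZMod n} {i : ℤ}
    (hi : cost σ v + 2 ^ i.natAbs ≤ c v - 1) (hc : c (v + (i : ZMod n)) = 0) :
    Valid c (Function.update σ (v + (i : ZMod n)) (some i)) := by
  refine ⟨fun x hx => ?_, fun w => ?_⟩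
  · by_cases hxy : x = v + (i : ZMod n)
    · rw [hxy]; exact hc
    · rw [Function.update_of_ne hxy] at hx
      exact h.1 x hx
  · have h1 := cost_upd σ (v + (i : ZMod n)) w (some i)
    have h2 := h.2 w
    by_cases hw : w = v
    · subst hw
      have h3 : kap (w + (i : ZMod n)) w (some i) = 2 ^ i.natAbs := by simp [kap]
      omega
    · have h3 : kap (v + (i : ZMod n)) w (some i) = 0 := by
        simp only [kap, add_sub_cancel_right]
        rw [if_neg (Ne.symm hw)]
      omega

/-- Removing a pebble. -/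
theorem Valid.remove {c : ZMod n → ℕ} {σ : Plan n} (h : Valid c σ) (x : ZMod n) :
    Valid c (Function.update σ x none) := by
  refine ⟨fun y hy => ?_, fun w => ?_⟩
  · by_cases hxy : y = x
    · subst hxy
      simp at hy
    · rw [Function.update_of_ne hxy] at hy
      exact h.1 y hy
  · have h1 := cost_upd σ x w none
    have h2 := h.2 w
    have h3 : kap x w none = 0 := rfl
    omega

/-- A valid plan of maximal potential. -/
def Best (c : ZMod n → ℕ) (T : ℕ) (σ : Plan n) : Prop :=
  Valid c σ ∧ ∀ σ', Valid c σ' → Psi T σ' ≤ Psi T σ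

theorem exists_best (c : ZMod n → ℕ) (T : ℕ) : ∃ σ, Best c T σ := by
  let S : Set ℕ := {k | ∃ σ, Valid c σ ∧ Psi T σ = k}
  have hne : S.Nonempty := by
    refine ⟨_, fun _ => none, ⟨fun x hx => absurd rfl hx, fun v => ?_⟩, rfl⟩
    have : cost (fun _ => none : Plan n) v = 0 := by simp [cost, kap]
    omega
  have hb : BddAbove S := by
    refine ⟨∑ _x : ZMod n, 3 ^ T, ?_⟩
    rintro k ⟨σ, _, rfl⟩
    unfold Psi
    apply Finset.sum_le_sum
    intro x _
    unfold psi
    split
    · positivity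
    · exact Nat.pow_le_pow_right (by norm_num) (by omega)
  obtain ⟨σ, h1, h2⟩ := Nat.sSup_mem hne hb
  refine ⟨σ, h1, fun σ' h' => ?_⟩
  rw [h2]
  exact le_csSup hb ⟨σ', h', rfl⟩

theorem lt_of_some {c : ZMod n → ℕ} {T : ℕ} (hT : ∀ v, c v ≤ T) {σ : Plan n} (h : Valid c σ)
    {x : ZMod n} {s : ℤ} (hs : σ x = some s) : s.natAbs < T ∧ c (x - (s : ZMod n)) ≠ 0 := by
  have h1 := kap_le_cost σ x (x - (s : ZMod n))
  rw [hs, kap_some_self] at h1
  have h2 := h.2 (x - (s : ZMod n))
  have h3 := hT (x - (s : ZMod n))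
  have h4 : s.natAbs < 2 ^ s.natAbs := Nat.lt_two_pow_self
  constructor <;> omega

theorem psi_lt {T i : ℕ} (hi : i < T) {o : Option ℤ}
    (ho : ∀ s, o = some s → i < s.natAbs) : 3 * psi T o ≤ 3 ^ (T - i) := by
  unfold psi
  split
  · positivity
  · rename_i s
    have h1 := ho s rfl
    rcases Nat.lt_or_ge s.natAbs T with h2 | h2
    · rw [← pow_succ']
      exact Nat.pow_le_pow_right (by norm_num) (by omega)
    · rw [Nat.sub_eq_zero_of_le h2, pow_zero, mul_one]
      calc 3 = 3 ^ 1 := rfl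
        _ ≤ 3 ^ (T - i) := Nat.pow_le_pow_right (by norm_num) (by omega)

/-- Exchange: a reachable distance is served at least as cheaply. -/
theorem Best.exch_a {c : ZMod n → ℕ} {T : ℕ} (hT : ∀ v, c v ≤ T) {σ : Plan n} (h : Best c T σ)
    {v : ZMod n} {i : ℤ} (hi : cost σ v + 2 ^ i.natAbs ≤ c v - 1) (hc : c (v + (i : ZMod n)) = 0) :
    ∃ s, σ (v + (i : ZMod n)) = some s ∧ s.natAbs ≤ i.natAbs := by
  by_contra hno
  push Not at hno
  have h1 := h.2 _ (h.1.add hi hc)
  have h2 := Psi_upd T σ (v + (i : ZMod n)) (some i)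
  have h4 : i.natAbs < 2 ^ i.natAbs := Nat.lt_two_pow_self
  have h5 := hT v
  have h6 := psi_lt (T := T) (i := i.natAbs) (by omega) hno
  have h7 : psi T (some i) = 3 ^ (T - i.natAbs) := rfl
  have h8 : 0 < 3 ^ (T - i.natAbs) := by positivity
  omega

theorem Best.exch_b {c : ZMod n → ℕ} {T : ℕ} (hT : ∀ v, c v ≤ T) {σ : Plan n} (h : Best c T σ)
    {x : ZMod n} {s i : ℤ} (hs : σ x = some s) (hi : i.natAbs < s.natAbs)
    (hc : c (x - (s : ZMod n) + (i : ZMod n)) = 0) :
    ∃ s', σ (x - (s : ZMod n) + (i : ZMod n)) = some s' ∧ s'.natAbs ≤ i.natAbs := by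
  by_contra hno
  push Not at hno
  set v := x - (s : ZMod n) with hv
  have hsT := (lt_of_some hT h.1 hs).1
  have hr := h.1.remove x
  set σ0 : Plan n := Function.update σ x none with hσ0
  have hcost : cost σ0 v + kap x v (σ x) = cost σ v + kap x v none := cost_upd σ x v none
  have hk : kap x v (σ x) = 2 ^ s.natAbs := by rw [hs, hv, kap_some_self]
  have hk0 : kap x v none = 0 := rfl
  rw [hk, hk0] at hcost
  have hpow : 2 ^ i.natAbs ≤ 2 ^ s.natAbs := Nat.pow_le_pow_right (by norm_num) hi.le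
  have hcv := h.1.2 v
  have hi0 : cost σ0 v + 2 ^ i.natAbs ≤ c v - 1 := by omega
  have h1 := h.2 _ (hr.add hi0 hc)
  have h2 := Psi_upd T σ0 (v + (i : ZMod n)) (some i)
  have h3 : Psi T σ0 + psi T (σ x) = Psi T σ + psi T none := Psi_upd T σ x none
  have hsmall : 3 * psi T (σ0 (v + (i : ZMod n))) ≤ 3 ^ (T - i.natAbs) := by
    apply psi_lt (by omega)
    intro s' hs'
    by_cases hxy : v + (i : ZMod n) = x
    · rw [hxy, hσ0, Function.update_self] at hs'
      exact absurd hs' (by simp)
    · rw [hσ0, Function.update_of_ne hxy] at hs'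
      exact hno s' hs'
  have hsmall2 : 3 * psi T (σ x) ≤ 3 ^ (T - i.natAbs) := by
    apply psi_lt (by omega)
    intro s' hs'
    rw [hs] at hs'
    cases hs'
    exact hi
  have h7 : psi T (some i) = 3 ^ (T - i.natAbs) := rfl
  have h70 : psi T none = 0 := rfl
  have h8 : 0 < 3 ^ (T - i.natAbs) := by positivity
  omega

/-- cost of one filled vertex -/
def wt (o : Option ℤ) : ℕ :=
  match o with
  | none => 0
  | some s => 2 ^ s.natAbs

/-- Total cost. -/
theorem sum_cost (σ : Plan n) : ∑ v, cost σ v = ∑ x, wt (σ x) := by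
  unfold cost
  rw [Finset.sum_comm]
  apply Finset.sum_congr rfl
  intro x _
  unfold kap wt
  cases σ x with
  | none => simp
  | some s => simp

end Pool.Agent.Q278.Hub
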