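import Pool.Agent.Q278.Hub.Move

/-! Layer counting on segments between holes. -/

namespace Pool.Agent.Q278.Hub
open Finset

set_option linter.unusedSectionVars false

/-- The extremal number of pebbles on a block of `N` vertices. -/
def phi (N : ℕ) : ℕ := N + ∑ j ∈ range N, 2 ^ j * (N - 2 * j)

theorem geom_two (e : ℕ) : 1 + ∑ j ∈ range e, 2 ^ j = 2 ^ e := by
  induction e with
  | zero => simp
  | succ e ih => rw [Finset.sum_range_succ, ← add_assoc, ih]; ring

theorem sum_layers (I : Finset ℤ) (e : ℤ → ℕ) (M : ℕ) (hM : ∀ i ∈ I, e i ≤ M) :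
    ∑ i ∈ I, 2 ^ e i = I.card + ∑ j ∈ range M, 2 ^ j * (I.filter (fun i => j < e i)).card := by
  have h1 : ∀ i ∈ I, 2 ^ e i = 1 + ∑ j ∈ range M, (if j < e i then 2 ^ j else 0) := by
    intro i hi
    rw [← geom_two (e i)]
    congr 1
    rw [← Finset.sum_filter]
    congr 1
    ext j
    simp only [Finset.mem_range, Finset.mem_filter]
    have := hM i hi
    omega
  rw [Finset.sum_congr rfl h1, Finset.sum_add_distrib, Finset.sum_const, smul_eq_mul, mul_one,
    Finset.sum_comm]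
  congr 1
  apply Finset.sum_congr rfl
  intro j _
  rw [← Finset.sum_filter, Finset.sum_const, smul_eq_mul, mul_comm]

theorem phi_ext {N M : ℕ} (h : N ≤ M) : phi N = N + ∑ j ∈ range M, 2 ^ j * (N - 2 * j) := by
  unfold phi
  congr 1
  apply Finset.sum_subset (Finset.range_mono h)
  intro j _ hj
  rw [Finset.mem_range, not_lt] at hj
  rw [Nat.sub_eq_zero_of_le (by omega), mul_zero]

/-- Layer bound and its equality case. -/
theorem layers_le (I : Finset ℤ) (e : ℤ → ℕ)
    (h : ∀ j, I.filter (fun i => j < e i) = ∅ ∨ (I.filter (fun i => j < e i)).card + 2 * j ≤ I.card) :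
    ∑ i ∈ I, 2 ^ e i ≤ phi I.card ∧
      (∑ i ∈ I, 2 ^ e i = phi I.card →
        ∀ j, (I.filter (fun i => j < e i)).card = I.card - 2 * j) := by
  have hcard : ∀ j, (I.filter (fun i => j < e i)).card ≤ I.card - 2 * j := by
    intro j
    rcases h j with h1 | h1
    · rw [h1]; simp
    · omega
  have key : ∀ M, (∀ i ∈ I, e i ≤ M) → I.card ≤ M →
      ∑ i ∈ I, 2 ^ e i ≤ phi I.card ∧ (∑ i ∈ I, 2 ^ e i = phi I.card →
        ∀ j < M, (I.filter (fun i => j < e i)).card = I.card - 2 * j) := by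
    intro M hM hN
    rw [sum_layers I e M hM, phi_ext hN]
    have hle : ∀ j ∈ range M, 2 ^ j * (I.filter (fun i => j < e i)).card
        ≤ 2 ^ j * (I.card - 2 * j) := fun j _ => Nat.mul_le_mul_left _ (hcard j)
    refine ⟨Nat.add_le_add_left (Finset.sum_le_sum hle) _, fun heq j hj => ?_⟩
    have h2 := Nat.add_left_cancel heq
    rw [Finset.sum_eq_sum_iff_of_le hle] at h2
    have h3 := h2 j (Finset.mem_range.2 hj)
    exact Nat.eq_of_mul_eq_mul_left (by positivity) h3
  obtain ⟨M0, hM0⟩ : ∃ M0, ∀ i ∈ I, e i ≤ M0 :=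
    ⟨∑ i ∈ I, e i, fun i hi => Finset.single_le_sum (f := e) (fun _ _ => Nat.zero_le _) hi⟩
  refine ⟨(key (M0 + I.card) (fun i hi => (hM0 i hi).trans (by omega)) (by omega)).1,
    fun heq j => ?_⟩
  exact (key (M0 + I.card + j + 1) (fun i hi => (hM0 i hi).trans (by omega)) (by omega)).2 heq j
    (by omega)

variable {n : ℕ} [NeZero n]

/-- level of a vertex -/
def lev (c : ZMod n → ℕ) (σ : Plan n) (v : ZMod n) : ℕ :=
  if c v ≠ 0 then Nat.size (c v - 1 - cost σ v) else
    match σ v with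
    | none => 0
    | some s => s.natAbs

/-- non-hole -/
def NH (c : ZMod n → ℕ) (σ : Plan n) (v : ZMod n) : Prop := c v ≠ 0 ∨ σ v ≠ none

instance (c : ZMod n → ℕ) (σ : Plan n) (v : ZMod n) : Decidable (NH c σ v) := by
  unfold NH; infer_instance

/-- center of level `j` -/
def Cen (c : ZMod n → ℕ) (σ : Plan n) (j : ℕ) (v : ZMod n) : Prop :=
  c v ≠ 0 ∧ ∀ i : ℤ, i.natAbs < j → c (v + (i : ZMod n)) ≠ 0 ∨
    ∃ s, σ (v + (i : ZMod n)) = some s ∧ s.natAbs ≤ i.natAbs

theorem Cen.mono {c : ZMod n → ℕ} {σ : Plan n} {j k : ℕ} {v : ZMod n} (h : Cen c σ k v)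
    (hj : j ≤ k) : Cen c σ j v := ⟨h.1, fun i hi => h.2 i (by omega)⟩

theorem Cen.nh {c : ZMod n → ℕ} {σ : Plan n} {j : ℕ} {v : ZMod n} (h : Cen c σ j v) {i : ℤ}
    (hi : i.natAbs < j) : NH c σ (v + (i : ZMod n)) := by
  rcases h.2 i hi with h1 | ⟨s, h1, _⟩
  · exact Or.inl h1
  · right; rw [h1]; simp

theorem cen_of_lev {c : ZMod n → ℕ} {T : ℕ} (hT : ∀ v, c v ≤ T) {σ : Plan n} (h : Best c T σ)
    {v : ZMod n} (hv : c v ≠ 0) {j : ℕ} (hj : j ≤ lev c σ v) : Cen c σ j v := by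
  refine ⟨hv, fun i hi => ?_⟩
  by_cases hc : c (v + (i : ZMod n)) = 0
  · right
    apply h.exch_a hT _ hc
    unfold lev at hj
    rw [if_pos hv] at hj
    have h1 : 2 ^ i.natAbs ≤ c v - 1 - cost σ v := Nat.lt_size.1 (by omega)
    have h2 := h.1.2 v
    have h3 : 0 < 2 ^ i.natAbs := by positivity
    omega
  · exact Or.inl hc

theorem cen_of_some {c : ZMod n → ℕ} {T : ℕ} (hT : ∀ v, c v ≤ T) {σ : Plan n} (h : Best c T σ)
    {x : ZMod n} {s : ℤ} (hs : σ x = some s) : Cen c σ s.natAbs (x - (s : ZMod n)) := by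
  refine ⟨(lt_of_some hT h.1 hs).2, fun i hi => ?_⟩
  by_cases hc : c (x - (s : ZMod n) + (i : ZMod n)) = 0
  · exact Or.inr (h.exch_b hT hs hi hc)
  · exact Or.inl hc

/-- The center of a vertex of a segment lies in the segment. -/
theorem center_mem {c : ZMod n → ℕ} {T : ℕ} (hT : ∀ v, c v ≤ T) {σ : Plan n} (h : Best c T σ)
    {p : ZMod n} {α β : ℤ} (hα : ¬ NH c σ (p + (α : ZMod n))) (hβ : ¬ NH c σ (p + (β : ZMod n)))
    {i : ℤ} (hi : i ∈ Ioo α β) {s : ℤ} (hs : σ (p + (i : ZMod n)) = some s) :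
    i - s ∈ Ioo α β := by
  have hC := cen_of_some hT h hs
  rw [Finset.mem_Ioo] at hi ⊢
  by_contra hno
  rcases le_or_gt (i - s) α with h1 | h1
  · apply hα
    have := hC.nh (i := α - (i - s)) (by omega)
    convert this using 1
    push_cast
    ring
  · have h2 : β ≤ i - s := by omega
    apply hβ
    have := hC.nh (i := β - (i - s)) (by omega)
    convert this using 1
    push_cast
    ring

theorem seg_count {c : ZMod n → ℕ} {T : ℕ} (hT : ∀ v, c v ≤ T) {σ : Plan n} (h : Best c T σ)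
    {p : ZMod n} {α β : ℤ} (hα : ¬ NH c σ (p + (α : ZMod n))) (hβ : ¬ NH c σ (p + (β : ZMod n)))
    (j : ℕ) :
    ((Ioo α β).filter (fun i : ℤ => NH c σ (p + (i : ZMod n)))).filter
        (fun i : ℤ => j < lev c σ (p + (i : ZMod n))) = ∅ ∨
      (((Ioo α β).filter (fun i : ℤ => NH c σ (p + (i : ZMod n)))).filter
        (fun i : ℤ => j < lev c σ (p + (i : ZMod n)))).card + 2 * j ≤
      ((Ioo α β).filter (fun i : ℤ => NH c σ (p + (i : ZMod n)))).card := by
  classical
  set I := (Ioo α β).filter (fun i : ℤ => NH c σ (p + (i : ZMod n))) with hI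
  set A := I.filter (fun i : ℤ => j < lev c σ (p + (i : ZMod n))) with hA
  rcases Finset.eq_empty_or_nonempty A with h0 | ⟨i0, hi0⟩
  · exact Or.inl h0
  right
  set G := (Ioo α β).filter (fun i : ℤ => Cen c σ (j + 1) (p + (i : ZMod n))) with hG
  have hGne : G.Nonempty := by
    rw [hA, Finset.mem_filter, hI, Finset.mem_filter] at hi0
    obtain ⟨⟨h1, h2⟩, h3⟩ := hi0
    by_cases hc : c (p + (i0 : ZMod n)) ≠ 0
    · exact ⟨i0, Finset.mem_filter.2 ⟨h1, cen_of_lev hT h hc h3⟩⟩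
    · have hs0 : σ (p + (i0 : ZMod n)) ≠ none := by
        rcases h2 with h2 | h2
        · exact absurd h2 hc
        · exact h2
      obtain ⟨s, hs⟩ := Option.ne_none_iff_exists'.1 hs0
      have h4 := center_mem hT h hα hβ h1 hs
      refine ⟨i0 - s, Finset.mem_filter.2 ⟨h4, ?_⟩⟩
      have h5 := cen_of_some hT h hs
      have h6 : lev c σ (p + (i0 : ZMod n)) = s.natAbs := by
        unfold lev; rw [if_neg hc, hs]
      have h7 := h5.mono (j := j + 1) (by omega)
      convert h7 using 1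
      push_cast
      ring
  set a := G.min' hGne with ha
  set b := G.max' hGne with hb
  have haG := Finset.mem_filter.1 (G.min'_mem hGne)
  have hbG := Finset.mem_filter.1 (G.max'_mem hGne)
  rw [← ha] at haG
  rw [← hb] at hbG
  have hab : a ≤ b := G.min'_le _ (G.max'_mem hGne)
  -- generic step
  have step : ∀ g : ℤ, g ∈ Ioo α β → Cen c σ (j + 1) (p + (g : ZMod n)) → ∀ y : ℤ,
      (y - g).natAbs ≤ j → (y ∈ I ∧ (y ∉ G → y ∉ A)) := by
    intro g hg hC y hy
    rw [Finset.mem_Ioo] at hg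
    have hcast : p + (g : ZMod n) + ((y - g : ℤ) : ZMod n) = p + (y : ZMod n) := by
      push_cast; ring
    have hnh : ∀ z : ℤ, (z - g).natAbs ≤ j → NH c σ (p + (z : ZMod n)) := by
      intro z hz
      have := hC.nh (i := z - g) (by omega)
      convert this using 1
      push_cast; ring
    have hyI : y ∈ Ioo α β := by
      rw [Finset.mem_Ioo]
      constructor
      · by_contra hno
        exact hα (hnh α (by omega))
      · by_contra hno
        exact hβ (hnh β (by omega))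
    refine ⟨Finset.mem_filter.2 ⟨hyI, hnh y hy⟩, fun hyG hyA => ?_⟩
    have h3 := (Finset.mem_filter.1 hyA).2
    by_cases hc : c (p + (y : ZMod n)) ≠ 0
    · exact hyG (Finset.mem_filter.2 ⟨hyI, cen_of_lev hT h hc h3⟩)
    · rcases hC.2 (y - g) (by omega) with h4 | ⟨s, h4, h5⟩
      · rw [hcast] at h4; exact hc h4
      · rw [hcast] at h4
        have h6 : lev c σ (p + (y : ZMod n)) = s.natAbs := by
          unfold lev; rw [if_neg hc, h4]
        omega
  have hB1 : ∀ y ∈ Icc (a - j) (a - 1), y ∈ I ∧ y ∉ A := by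
    intro y hy
    rw [Finset.mem_Icc] at hy
    obtain ⟨h1, h2⟩ := step a haG.1 haG.2 y (by omega)
    refine ⟨h1, h2 (fun hyG => ?_)⟩
    have := G.min'_le _ hyG
    omega
  have hB2 : ∀ y ∈ Icc (b + 1) (b + j), y ∈ I ∧ y ∉ A := by
    intro y hy
    rw [Finset.mem_Icc] at hy
    obtain ⟨h1, h2⟩ := step b hbG.1 hbG.2 y (by omega)
    refine ⟨h1, h2 (fun hyG => ?_)⟩
    have := G.le_max' _ hyG
    omega
  have hd1 : Disjoint (Icc (a - (j : ℤ)) (a - 1)) (Icc (b + 1) (b + (j : ℤ))) := by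
    rw [Finset.disjoint_left]
    intro y h1 h2
    rw [Finset.mem_Icc] at h1 h2
    omega
  have hd2 : Disjoint A (Icc (a - (j : ℤ)) (a - 1) ∪ Icc (b + 1) (b + (j : ℤ))) := by
    rw [Finset.disjoint_left]
    intro y h1 h2
    rcases Finset.mem_union.1 h2 with h3 | h3
    · exact (hB1 y h3).2 h1
    · exact (hB2 y h3).2 h1
  have hsub : A ∪ (Icc (a - (j : ℤ)) (a - 1) ∪ Icc (b + 1) (b + (j : ℤ))) ⊆ I := by
    intro y hy
    rcases Finset.mem_union.1 hy with h1 | h1
    · exact (Finset.mem_filter.1 h1).1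
    · rcases Finset.mem_union.1 h1 with h3 | h3
      · exact (hB1 y h3).1
      · exact (hB2 y h3).1
  have hc := Finset.card_le_card hsub
  rw [Finset.card_union_of_disjoint hd2, Finset.card_union_of_disjoint hd1, Int.card_Icc,
    Int.card_Icc] at hc
  omega

/-- The bound on a segment. -/
theorem seg_le {c : ZMod n → ℕ} {T : ℕ} (hT : ∀ v, c v ≤ T) {σ : Plan n} (h : Best c T σ)
    {p : ZMod n} {α β : ℤ} (hα : ¬ NH c σ (p + (α : ZMod n))) (hβ : ¬ NH c σ (p + (β : ZMod n)))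
    (I : Finset ℤ) (hI : I = (Ioo α β).filter (fun i : ℤ => NH c σ (p + (i : ZMod n)))) :
    ∑ i ∈ I, 2 ^ lev c σ (p + (i : ZMod n)) ≤ phi I.card ∧
      (∑ i ∈ I, 2 ^ lev c σ (p + (i : ZMod n)) = phi I.card →
        ∀ j, (I.filter (fun i : ℤ => j < lev c σ (p + (i : ZMod n)))).card = I.card - 2 * j) := by
  subst hI
  exact layers_le _ (fun i : ℤ => lev c σ (p + (i : ZMod n))) (fun j => seg_count hT h hα hβ j)

end Pool.Agent.Q278.Hub
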