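import Pool.Agent.Q278.Hub.Seg

/-! Values of `phi`, the total number of pebbles, positions. -/

namespace Pool.Agent.Q278.Hub
open Finset

set_option linter.unusedSectionVars false

theorem phi_succ (N : ℕ) : phi (N + 1) = phi N + 2 ^ (N / 2 + 1) := by
  rw [phi_ext (N := N) (M := N + 1) (by omega), phi, ← geom_two (N / 2 + 1)]
  have h : ∑ j ∈ range (N + 1), 2 ^ j * (N + 1 - 2 * j) =
      ∑ j ∈ range (N + 1), 2 ^ j * (N - 2 * j) + ∑ j ∈ range (N / 2 + 1), 2 ^ j := by
    have h2 : ∑ j ∈ range (N / 2 + 1), 2 ^ j =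
        ∑ j ∈ range (N + 1), (if j < N / 2 + 1 then 2 ^ j else 0) := by
      rw [← Finset.sum_filter]
      congr 1
      ext j
      simp only [Finset.mem_range, Finset.mem_filter]
      omega
    rw [h2, ← Finset.sum_add_distrib]
    apply Finset.sum_congr rfl
    intro j _
    by_cases hj : j < N / 2 + 1
    · rw [if_pos hj]
      have : N + 1 - 2 * j = (N - 2 * j) + 1 := by omega
      rw [this]; ring
    · rw [if_neg hj]
      have h3 : N + 1 - 2 * j = 0 := by omega
      have h4 : N - 2 * j = 0 := by omega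
      rw [h3, h4]; simp
  omega

theorem phi_zero : phi 0 = 0 := by simp [phi]

theorem phi_one : phi 1 = 2 := by rw [phi_succ, phi_zero]; norm_num

theorem phi_mono : Monotone phi := monotone_nat_of_le_succ (fun N => by rw [phi_succ]; exact Nat.le_add_right _ _)

theorem phi_add {a b : ℕ} (ha : 2 ≤ a) (hb : 2 ≤ b) : phi a + phi b ≤ phi (a + b - 1) := by
  obtain ⟨b, rfl⟩ := Nat.exists_eq_add_of_le hb
  clear hb
  induction b with
  | zero =>
    have h1 : a + (2 + 0) - 1 = a + 1 := by omega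
    have h2 : phi (2 + 0) = 4 := by
      show phi (1 + 1) = 4
      rw [phi_succ, phi_one]; norm_num
    rw [h1, h2, phi_succ]
    have : 2 ^ 2 ≤ 2 ^ (a / 2 + 1) := Nat.pow_le_pow_right (by norm_num) (by omega)
    omega
  | succ b ih =>
    have h1 : a + (2 + (b + 1)) - 1 = (a + (2 + b) - 1) + 1 := by omega
    have h2 : 2 + (b + 1) = (2 + b) + 1 := by ring
    rw [h1, h2, phi_succ, phi_succ (a + (2 + b) - 1)]
    have : 2 ^ ((2 + b) / 2 + 1) ≤ 2 ^ ((a + (2 + b) - 1) / 2 + 1) :=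
      Nat.pow_le_pow_right (by norm_num) (by omega)
    omega

theorem phi_even (J : ℕ) : phi (2 * J) + 4 = 2 ^ (J + 2) ∧ phi (2 * J + 1) + 4 = 3 * 2 ^ (J + 1) := by
  induction J with
  | zero => rw [phi_zero, phi_one]; norm_num
  | succ J ih =>
    have h1 : 2 * (J + 1) = 2 * J + 1 + 1 := by ring
    have h2 : phi (2 * J + 1 + 1) = phi (2 * J + 1) + 2 ^ (J + 1) := by
      rw [phi_succ]; congr 2; omega
    have h3 : phi (2 * J + 1 + 1 + 1) = phi (2 * J + 1 + 1) + 2 ^ (J + 2) := by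
      rw [phi_succ]; congr 2; omega
    rw [h1, h3, h2]
    have h4 : (2 : ℕ) ^ (J + 2) = 2 * 2 ^ (J + 1) := by ring
    have h5 : (2 : ℕ) ^ (J + 1 + 2) = 4 * 2 ^ (J + 1) := by ring
    have h6 : (2 : ℕ) ^ (J + 1 + 1) = 2 * 2 ^ (J + 1) := by ring
    exact ⟨by omega, by omega⟩

variable {n : ℕ} [NeZero n]

theorem sum_shift (p : ZMod n) (F : ZMod n → ℕ) :
    ∑ v, F v = ∑ i ∈ Finset.Ico (0 : ℤ) n, F (p + (i : ZMod n)) := by
  apply Finset.sum_nbij' (i := fun v => ((v - p).val : ℤ)) (j := fun i : ℤ => p + (i : ZMod n))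
  · intro v _
    rw [Finset.mem_Ico]
    exact ⟨by positivity, by exact_mod_cast ZMod.val_lt _⟩
  · intro i _; exact Finset.mem_univ _
  · intro v _
    simp
  · intro i hi
    rw [Finset.mem_Ico] at hi
    have : p + (i : ZMod n) - p = (i : ZMod n) := by ring
    simp only [this]
    rw [ZMod.val_intCast, Int.emod_eq_of_lt hi.1 hi.2]
  · intro v _
    simp

theorem exists_pos (p v : ZMod n) : ∃ i : ℤ, 0 ≤ i ∧ i < n ∧ v = p + (i : ZMod n) := by
  refine ⟨((v - p).val : ℤ), by positivity, by exact_mod_cast ZMod.val_lt _, by simp⟩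

theorem pos_inj {p : ZMod n} {i j : ℤ} (h : p + (i : ZMod n) = p + (j : ZMod n)) :
    (n : ℤ) ∣ i - j := by
  have h1 : (i : ZMod n) = (j : ZMod n) := by simpa using h
  have h2 : ((i - j : ℤ) : ZMod n) = 0 := by push_cast; rw [h1]; ring
  exact (ZMod.intCast_zmod_eq_zero_iff_dvd _ _).1 h2

theorem pos_ne {p : ZMod n} {i j : ℤ} (h : i ≠ j) (h2 : |i - j| < n) :
    p + (i : ZMod n) ≠ p + (j : ZMod n) := by
  intro heq
  have h1 := pos_inj heq
  have h3 := Int.eq_zero_of_abs_lt_dvd h1 h2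
  omega

/-- the accounted value of a vertex -/
def val (c : ZMod n → ℕ) (σ : Plan n) (v : ZMod n) : ℕ :=
  if NH c σ v then 2 ^ lev c σ v else 0

def acc (c : ZMod n → ℕ) (σ : Plan n) (v : ZMod n) : ℕ :=
  (if c v ≠ 0 then 1 + (c v - 1 - cost σ v) else 0) + wt (σ v)

theorem sum_acc {c : ZMod n → ℕ} {σ : Plan n} (h : Valid c σ) : ∑ v, c v = ∑ v, acc c σ v := by
  unfold acc
  rw [Finset.sum_add_distrib, ← sum_cost, ← Finset.sum_add_distrib]
  apply Finset.sum_congr rfl
  intro v _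
  have := h.2 v
  split_ifs with h1 <;> omega

theorem acc_le {c : ZMod n → ℕ} {σ : Plan n} (h : Valid c σ) (v : ZMod n) :
    acc c σ v ≤ val c σ v := by
  by_cases h1 : c v ≠ 0
  · have h2 : σ v = none := by
      by_contra h3; exact h1 (h.1 v h3)
    have hN : NH c σ v := Or.inl h1
    unfold acc val lev
    rw [if_pos h1, if_pos hN, if_pos h1, h2]
    have := Nat.lt_size_self (c v - 1 - cost σ v)
    simp only [wt, add_zero]
    omega
  · rcases hs : σ v with _ | s
    · unfold acc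
      rw [if_neg h1, hs]
      simp [wt]
    · have hN : NH c σ v := Or.inr (by rw [hs]; simp)
      unfold acc val lev
      rw [if_neg h1, if_pos hN, if_neg h1, hs]
      simp [wt]

theorem total_le {c : ZMod n → ℕ} {σ : Plan n} (h : Valid c σ) :
    ∑ v, c v ≤ ∑ v, val c σ v ∧
      (∑ v, c v = ∑ v, val c σ v → ∀ v, c v ≠ 0 → 1 + (c v - 1 - cost σ v) = 2 ^ lev c σ v) := by
  rw [sum_acc h]
  refine ⟨Finset.sum_le_sum (fun v _ => acc_le h v), fun heq v hv => ?_⟩
  rw [Finset.sum_eq_sum_iff_of_le (fun v _ => acc_le h v)] at heq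
  have h1 := heq v (Finset.mem_univ v)
  have h2 : σ v = none := by
    by_contra h3; exact hv (h.1 v h3)
  have hN : NH c σ v := Or.inl hv
  unfold acc val at h1
  rw [if_pos hv, if_pos hN, h2] at h1
  simpa [wt] using h1

/-- Sum of values as a sum over positions. -/
theorem sum_val (c : ZMod n → ℕ) (σ : Plan n) (p : ZMod n) (hp : ¬ NH c σ p) :
    ∑ v, val c σ v = ∑ i ∈ (Ioo (0 : ℤ) n).filter (fun i : ℤ => NH c σ (p + (i : ZMod n))),
      2 ^ lev c σ (p + (i : ZMod n)) := by
  rw [sum_shift p, Finset.sum_filter]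
  have h0 : (0 : ℤ) < n := by exact_mod_cast Nat.pos_of_ne_zero (NeZero.ne n)
  have h1 : Finset.Ico (0 : ℤ) n = insert 0 (Ioo (0 : ℤ) n) := by
    ext i; simp only [Finset.mem_Ico, Finset.mem_insert, Finset.mem_Ioo]; omega
  rw [h1, Finset.sum_insert (by simp)]
  have h2 : val c σ (p + ((0 : ℤ) : ZMod n)) = 0 := by
    unfold val
    rw [Int.cast_zero, add_zero, if_neg hp]
  rw [h2, zero_add]
  rfl

theorem card_nh (c : ZMod n → ℕ) (σ : Plan n) (p : ZMod n) (hp : ¬ NH c σ p) :
    ((Ioo (0 : ℤ) n).filter (fun i : ℤ => NH c σ (p + (i : ZMod n)))).card +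
      (univ.filter (fun v => ¬ NH c σ v)).card = n := by
  have h3 : (univ.filter (fun v => NH c σ v)).card +
      (univ.filter (fun v => ¬ NH c σ v)).card = n := by
    have := Finset.card_filter_add_card_filter_not (s := (univ : Finset (ZMod n)))
      (fun v => NH c σ v)
    rw [Finset.card_univ, ZMod.card] at this
    exact this
  have h4 : (univ.filter (fun v => NH c σ v)).card =
      ((Ioo (0 : ℤ) n).filter (fun i : ℤ => NH c σ (p + (i : ZMod n)))).card := by
    rw [Finset.card_filter, sum_shift p, Finset.card_filter]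
    have h0 : (0 : ℤ) < n := by exact_mod_cast Nat.pos_of_ne_zero (NeZero.ne n)
    have h1 : Finset.Ico (0 : ℤ) n = insert 0 (Ioo (0 : ℤ) n) := by
      ext i; simp only [Finset.mem_Ico, Finset.mem_insert, Finset.mem_Ioo]; omega
    rw [h1, Finset.sum_insert (by simp)]
    rw [Int.cast_zero, add_zero, if_neg hp, zero_add]
  omega

end Pool.Agent.Q278.Hub
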